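import Mathlib

/-!
# The relational language, structures given by data, back-and-forth and quantifier elimination
-/

namespace Pool.Agent.Q209.DM

open FirstOrder FirstOrder.Language

/-- the relation symbols -/
inductive Rl : ℕ → Type
  | P : Rl 1
  | Q : Rl 1
  | X (n : ℕ) : Rl 1
  | lam (n : ℕ) : Rl 2
  | kap (n : ℕ) : Rl 2
  | R : Rl 3

/-- the index of a symbol -/
def Rl.idx : {n : ℕ} → Rl n → ℕ
  | _, .P => 0
  | _, .Q => 0
  | _, .X n => n
  | _, .lam n => n
  | _, .kap n => n
  | _, .R => 0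

/-- the language -/
def Lg : FirstOrder.Language.{0, 0} := ⟨fun _ => Empty, Rl⟩

/-- the relations of a structure -/
@[ext] structure Dat (M : Type) where
  p : M → Prop
  q : M → Prop
  x : ℕ → M → Prop
  l : ℕ → M → M → Prop
  h : ℕ → M → M → Prop
  r : M → M → M → Prop

variable {M N K : Type}

/-- uniform access to the relations -/
def Dat.rel (D : Dat M) : {n : ℕ} → Rl n → (Fin n → M) → Prop
  | _, .P, t => D.p (t 0)
  | _, .Q, t => D.q (t 0)
  | _, .X n, t => D.x n (t 0)
  | _, .lam n, t => D.l n (t 0) (t 1)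
  | _, .kap n, t => D.h n (t 0) (t 1)
  | _, .R, t => D.r (t 0) (t 1) (t 2)

/-- data from uniform relations -/
def Dat.ofRel (F : ∀ n : ℕ, Rl n → (Fin n → M) → Prop) : Dat M where
  p a := F _ .P ![a]
  q a := F _ .Q ![a]
  x n a := F _ (.X n) ![a]
  l n a b := F _ (.lam n) ![a, b]
  h n a b := F _ (.kap n) ![a, b]
  r a b c := F _ .R ![a, b, c]

/-- restriction along a map -/
def Dat.pull (D : Dat M) (f : N → M) : Dat N where
  p a := D.p (f a)
  q a := D.q (f a)
  x n a := D.x n (f a)
  l n a b := D.l n (f a) (f b)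
  h n a b := D.h n (f a) (f b)
  r a b c := D.r (f a) (f b) (f c)

/-- forgetting the symbols of index at least `k` -/
def Dat.cut (D : Dat M) (k : ℕ) : Dat M where
  p a := 0 < k ∧ D.p a
  q a := 0 < k ∧ D.q a
  x n a := n < k ∧ D.x n a
  l n a b := n < k ∧ D.l n a b
  h n a b := n < k ∧ D.h n a b
  r a b c := 0 < k ∧ D.r a b c

theorem rel_pull (D : Dat M) (f : N → M) {n : ℕ} (r : Rl n) (t : Fin n → N) :
    (D.pull f).rel r t ↔ D.rel r (f ∘ t) := by
  cases r <;> exact Iff.rfl

theorem rel_cut (D : Dat M) (k : ℕ) {n : ℕ} (r : Rl n) (t : Fin n → M) :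
    (D.cut k).rel r t ↔ (r.idx < k ∧ D.rel r t) := by
  cases r <;> exact Iff.rfl

theorem vec1 (t : Fin 1 → M) : ![t 0] = t := by
  funext i; fin_cases i; rfl
theorem vec2 (t : Fin 2 → M) : ![t 0, t 1] = t := by
  funext i; fin_cases i <;> rfl
theorem vec3 (t : Fin 3 → M) : ![t 0, t 1, t 2] = t := by
  funext i; fin_cases i <;> rfl

theorem rel_ofRel (F : ∀ n : ℕ, Rl n → (Fin n → M) → Prop) {n : ℕ} (r : Rl n) (t : Fin n → M) :
    (Dat.ofRel F).rel r t ↔ F n r t := by
  cases r <;> simp only [Dat.ofRel, Dat.rel] <;> first | rw [vec1] | rw [vec2] | rw [vec3]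

theorem ext_rel {D E : Dat M} (h : ∀ (n : ℕ) (r : Rl n) (t : Fin n → M), D.rel r t ↔ E.rel r t) :
    D = E := by
  refine Dat.ext ?_ ?_ ?_ ?_ ?_ ?_
  · funext a; exact propext (h 1 .P ![a])
  · funext a; exact propext (h 1 .Q ![a])
  · funext n a; exact propext (h 1 (.X n) ![a])
  · funext n a b; exact propext (h 2 (.lam n) ![a, b])
  · funext n a b; exact propext (h 2 (.kap n) ![a, b])
  · funext a b c; exact propext (h 3 .R ![a, b, c])

theorem pull_pull (D : Dat M) (f : N → M) (g : K → N) : (D.pull f).pull g = D.pull (f ∘ g) := rfl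
theorem pull_id (D : Dat M) : D.pull id = D := rfl
theorem cut_pull (D : Dat M) (f : N → M) (k : ℕ) : (D.cut k).pull f = (D.pull f).cut k := rfl

theorem cut_cut (D : Dat M) {k l : ℕ} (h : l ≤ k) : (D.cut k).cut l = D.cut l := by
  refine ext_rel fun n r t => ?_
  rw [rel_cut, rel_cut, rel_cut]
  constructor
  · rintro ⟨a, b, c⟩; exact ⟨a, c⟩
  · rintro ⟨a, c⟩; exact ⟨a, lt_of_lt_of_le a h, c⟩

/-- data of a structure -/
def dat (M : Type) [Lg.Structure M] : Dat M :=
  Dat.ofRel (fun _ r t => Structure.RelMap (L := Lg) (M := M) r t)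

theorem rel_dat [Lg.Structure M] {n : ℕ} (r : Rl n) (t : Fin n → M) :
    (dat M).rel r t ↔ Structure.RelMap (L := Lg) (M := M) r t := rel_ofRel _ r t

/-- the structure given by data -/
@[reducible] def Dat.str (D : Dat M) : Lg.Structure M where
  funMap := fun f _ => Empty.elim f
  RelMap := fun {_} r t => D.rel r t

theorem dat_str (D : Dat M) : @dat M D.str = D := by
  let _ := D.str
  exact ext_rel fun n r t => rel_dat r t

/-- equivalence of tuples up to index `k` -/
structure Same (D : Dat M) (E : Dat N) (k : ℕ) {ι : Type} (v : ι → M) (w : ι → N) : Prop where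
  eq : ∀ i j, v i = v j ↔ w i = w j
  dt : (D.pull v).cut k = (E.pull w).cut k

section
variable {D : Dat M} {E : Dat N} {F : Dat K} {k : ℕ} {ι : Type} {v : ι → M} {w : ι → N} {z : ι → K}

theorem Same.refl (D : Dat M) (k : ℕ) (v : ι → M) : Same D D k v v := ⟨fun _ _ => Iff.rfl, rfl⟩

theorem Same.symm (h : Same D E k v w) : Same E D k w v := ⟨fun i j => (h.eq i j).symm, h.dt.symm⟩

theorem Same.trans (h : Same D E k v w) (h' : Same E F k w z) : Same D F k v z :=
  ⟨fun i j => (h.eq i j).trans (h'.eq i j), h.dt.trans h'.dt⟩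

theorem Same.comp (h : Same D E k v w) {κ : Type} (f : κ → ι) :
    Same D E k (v ∘ f) (w ∘ f) :=
  ⟨fun i j => h.eq (f i) (f j), by
    have := congrArg (fun G => G.pull f) h.dt
    exact this⟩

theorem Same.mono (h : Same D E k v w) {l : ℕ} (hl : l ≤ k) : Same D E l v w :=
  ⟨h.eq, by
    have := congrArg (fun G => G.cut l) h.dt
    rw [cut_cut _ hl, cut_cut _ hl] at this
    exact this⟩

theorem Same.rel (h : Same D E k v w) {n : ℕ} (r : Rl n) (hr : r.idx < k) (t : Fin n → ι) :
    D.rel r (v ∘ t) ↔ E.rel r (w ∘ t) := by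
  have h1 := congrArg (fun G => G.rel r t) h.dt
  have h2 : ((D.pull v).cut k).rel r t ↔ ((E.pull w).cut k).rel r t := iff_of_eq h1
  rw [rel_cut, rel_cut, rel_pull, rel_pull] at h2
  constructor
  · intro h; exact (h2.1 ⟨hr, h⟩).2
  · intro h; exact (h2.2 ⟨hr, h⟩).2

theorem same_of_rel (he : ∀ i j, v i = v j ↔ w i = w j)
    (hr : ∀ (n : ℕ) (r : Rl n), r.idx < k → ∀ t : Fin n → ι, D.rel r (v ∘ t) ↔ E.rel r (w ∘ t)) :
    Same D E k v w := by
  refine ⟨he, ext_rel fun n r t => ?_⟩
  rw [rel_cut, rel_cut, rel_pull, rel_pull]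
  constructor
  · rintro ⟨a, b⟩; exact ⟨a, (hr n r a t).1 b⟩
  · rintro ⟨a, b⟩; exact ⟨a, (hr n r a t).2 b⟩

end

/-- adding a point to a tuple -/
abbrev oc {ι : Type} (v : ι → M) (a : M) : Option ι → M := fun o => o.elim a v

/-- forth property -/
def Forth (D : Dat M) (E : Dat N) (k : ℕ) : Prop :=
  ∀ (ι : Type) [Finite ι] (v : ι → M) (w : ι → N), Same D E k v w → ∀ a : M, ∃ b : N,
    Same D E k (oc v a) (oc w b)

theorem term_var {α : Type} (t : Lg.Term α) : ∃ i, t = Term.var i := by
  cases t with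
  | var i => exact ⟨i, rfl⟩
  | func f ts => exact Empty.elim f

theorem realize_iff [Lg.Structure M] [Lg.Structure N]
    (hf : ∀ k, Forth (dat M) (dat N) k) (hb : ∀ k, Forth (dat N) (dat M) k)
    {α : Type} [Finite α] {n : ℕ} (φ : Lg.BoundedFormula α n) :
    ∃ k, ∀ (v : α → M) (xs : Fin n → M) (w : α → N) (ys : Fin n → N),
      Same (dat M) (dat N) k (Sum.elim v xs) (Sum.elim w ys) →
        (φ.Realize v xs ↔ φ.Realize w ys) := by
  induction φ with
  | falsum => exact ⟨0, fun _ _ _ _ _ => Iff.rfl⟩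
  | equal t₁ t₂ =>
    refine ⟨0, fun v xs w ys h => ?_⟩
    obtain ⟨i, rfl⟩ := term_var t₁
    obtain ⟨j, rfl⟩ := term_var t₂
    exact h.eq i j
  | @rel n l r ts =>
    have hts : ∀ i, ∃ a, ts i = Term.var a := fun i => term_var (ts i)
    choose a ha using hts
    have hts' : ts = fun i => Term.var (a i) := funext ha
    subst hts'
    clear ha
    change Rl l at r
    refine ⟨r.idx + 1, fun v xs w ys h => ?_⟩
    exact (rel_dat r (Sum.elim v xs ∘ a)).symm.trans
      ((h.rel r (Nat.lt_succ_self _) a).trans (rel_dat r (Sum.elim w ys ∘ a)))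
  | imp φ ψ ih₁ ih₂ =>
    obtain ⟨k₁, h₁⟩ := ih₁
    obtain ⟨k₂, h₂⟩ := ih₂
    refine ⟨max k₁ k₂, fun v xs w ys h => ?_⟩
    rw [BoundedFormula.realize_imp, BoundedFormula.realize_imp,
      h₁ v xs w ys (h.mono (le_max_left _ _)), h₂ v xs w ys (h.mono (le_max_right _ _))]
  | @all n φ ih =>
    obtain ⟨k, hk⟩ := ih
    refine ⟨k, fun v xs w ys h => ?_⟩
    have key : ∀ (a : M) (b : N),
        Same (dat M) (dat N) k (oc (Sum.elim v xs) a) (oc (Sum.elim w ys) b) →
        Same (dat M) (dat N) k (Sum.elim v (Fin.snoc xs a : Fin (n + 1) → M))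
          (Sum.elim w (Fin.snoc ys b : Fin (n + 1) → N)) := by
      intro a b hab
      let f : α ⊕ Fin (n + 1) → Option (α ⊕ Fin n) := fun s =>
        match s with
        | Sum.inl x => some (Sum.inl x)
        | Sum.inr i => if hi : (i : ℕ) < n then some (Sum.inr ⟨i, hi⟩) else none
      have e1 : (Sum.elim v (Fin.snoc xs a : Fin (n + 1) → M)) = (oc (Sum.elim v xs) a) ∘ f := by
        funext s
        rcases s with x | i
        · rfl
        · refine Fin.lastCases ?_ (fun i => ?_) i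
          · simp [f]
          · simp [f]
      have e2 : (Sum.elim w (Fin.snoc ys b : Fin (n + 1) → N)) = (oc (Sum.elim w ys) b) ∘ f := by
        funext s
        rcases s with x | i
        · rfl
        · refine Fin.lastCases ?_ (fun i => ?_) i
          · simp [f]
          · simp [f]
      rw [e1, e2]
      exact hab.comp f
    rw [BoundedFormula.realize_all, BoundedFormula.realize_all]
    constructor
    · intro hall b
      obtain ⟨a, hab⟩ := hb k _ _ _ h.symm b
      exact (hk v (Fin.snoc xs a) w (Fin.snoc ys b) (key a b hab.symm)).1 (hall a)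
    · intro hall a
      obtain ⟨b, hab⟩ := hf k _ _ _ h a
      exact (hk v (Fin.snoc xs a) w (Fin.snoc ys b) (key a b hab)).2 (hall b)

theorem sentence_iff [Lg.Structure M] [Lg.Structure N]
    (hf : ∀ k, Forth (dat M) (dat N) k) (hb : ∀ k, Forth (dat N) (dat M) k)
    (φ : Lg.Sentence) : M ⊨ φ ↔ N ⊨ φ := by
  obtain ⟨k, hk⟩ := realize_iff hf hb φ
  refine hk default default default default (same_of_rel ?_ ?_)
  · intro i
    rcases i with i | i
    · exact i.elim
    · exact i.elim0
  · intro n r _ t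
    have i0 : Empty ⊕ Fin 0 := by
      cases r <;> exact t 0
    rcases i0 with i | i
    · exact i.elim
    · exact i.elim0

/-- full equivalence of tuples -/
structure SameA (D : Dat M) (E : Dat N) {ι : Type} (v : ι → M) (w : ι → N) : Prop where
  eq : ∀ i j, v i = v j ↔ w i = w j
  dt : D.pull v = E.pull w

theorem SameA.same {D : Dat M} {E : Dat N} {ι : Type} {v : ι → M} {w : ι → N}
    (h : SameA D E v w) (k : ℕ) : Same D E k v w := ⟨h.eq, by rw [h.dt]⟩

theorem SameA.symm {D : Dat M} {E : Dat N} {ι : Type} {v : ι → M} {w : ι → N}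
    (h : SameA D E v w) : SameA E D w v := ⟨fun i j => (h.eq i j).symm, h.dt.symm⟩

theorem SameA.comp {D : Dat M} {E : Dat N} {ι κ : Type} {v : ι → M} {w : ι → N}
    (h : SameA D E v w) (f : κ → ι) : SameA D E (v ∘ f) (w ∘ f) :=
  ⟨fun i j => h.eq (f i) (f j), congrArg (fun G => G.pull f) h.dt⟩

theorem SameA.rel {D : Dat M} {E : Dat N} {ι : Type} {v : ι → M} {w : ι → N}
    (h : SameA D E v w) {n : ℕ} (r : Rl n) (t : Fin n → ι) :
    D.rel r (v ∘ t) ↔ E.rel r (w ∘ t) := by
  rw [← rel_pull, ← rel_pull, h.dt]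

theorem sameA_of_same {D : Dat M} {E : Dat N} {ι : Type} {v : ι → M} {w : ι → N}
    (h : ∀ k, Same D E k v w) : SameA D E v w := by
  refine ⟨(h 0).eq, ext_rel fun n r t => ?_⟩
  rw [rel_pull, rel_pull]
  exact (h (r.idx + 1)).rel r (Nat.lt_succ_self _) t

/-- a formula depends only on finitely many variables -/
theorem exists_fin {L : FirstOrder.Language.{0, 0}} {γ : Type} (φ : L.Formula γ) :
    ∃ (F : Finset γ) (ψ : L.Formula F), ∀ (N : Type) [L.Structure N] (c : γ → N),
      φ.Realize c ↔ ψ.Realize (fun i : F => c i) := by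
  classical
  refine ⟨φ.freeVarFinset, φ.restrictFreeVar id, fun N _ c => ?_⟩
  rw [Formula.Realize, Formula.Realize]
  refine (BoundedFormula.realize_restrictFreeVar (φ := φ) (f := id)
    (v := fun i : φ.freeVarFinset => c i) (v' := c) ?_).symm
  rintro ⟨a, h⟩
  rfl

/-- quantifier elimination, for tuples of any length -/
theorem formula_iff [Lg.Structure M] [Lg.Structure N]
    (hf : ∀ k, Forth (dat M) (dat N) k) (hb : ∀ k, Forth (dat N) (dat M) k)
    {α : Type} (φ : Lg.Formula α) {v : α → M} {w : α → N}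
    (h : SameA (dat M) (dat N) v w) : φ.Realize v ↔ φ.Realize w := by
  obtain ⟨F, ψ, hψ⟩ := exists_fin φ
  rw [hψ M v, hψ N w]
  obtain ⟨k, hk⟩ := realize_iff hf hb ψ
  refine hk _ default _ default ?_
  have e1 : Sum.elim (fun i : F => v i) (default : Fin 0 → M) =
      v ∘ (Sum.elim (fun i : F => (i : α)) (fun i : Fin 0 => i.elim0)) := by
    funext s
    rcases s with s | s
    · rfl
    · exact s.elim0
  have e2 : Sum.elim (fun i : F => w i) (default : Fin 0 → N) =
      w ∘ (Sum.elim (fun i : F => (i : α)) (fun i : Fin 0 => i.elim0)) := by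
    funext s
    rcases s with s | s
    · rfl
    · exact s.elim0
  rw [e1, e2]
  exact (h.comp _).same k

end Pool.Agent.Q209.DM
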