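import Pool.Agent.Y562.NWO.Main

/-!
# Domination between invariant types of a monster model
-/

namespace Pool.Agent.Q209.DM

open FirstOrder FirstOrder.Language Cardinal Pool.Agent.Y562.NWO

variable {L : FirstOrder.Language.{0, 0}} {U : Type} [L.Structure U]

/-- The restriction `p|A` of the global type `p`. -/
def restr (A : Set U) {α : Type} (p : Set (L.Formula (α ⊕ U))) : Set (L.Formula (α ⊕ A)) :=
  {φ | φ.relabel (Sum.map id (fun u : A => (u : U))) ∈ p}

/-- The complete type over `A` of the tuple `a` of an elementary extension of `U`. -/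
def tpOver (A : Set U) {α N : Type} [L.Structure N] (j : U ↪ₑ[L] N) (a : α → N) :
    Set (L.Formula (α ⊕ A)) :=
  {φ | φ.Realize (Sum.elim a (fun u : A => j u))}

/-- Domination `p ≥_D q`: there are a small `A` over which `p` and `q` are invariant and a complete
type `r(x, y)` over `A` containing `p|A` and `q|A` such that `p(x) ∪ r(x, y)` implies `q(y)`. -/
def Dominates (κ : Cardinal.{0}) {α β : Type} (p : Set (L.Formula (α ⊕ U)))
    (q : Set (L.Formula (β ⊕ U))) : Prop :=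
  ∃ A : Set U, #A < κ ∧ Invariant A p ∧ Invariant A q ∧ ∃ r : Set (L.Formula ((α ⊕ β) ⊕ A)),
    (∃ (N : Type) (_ : L.Structure N) (j : U ↪ₑ[L] N) (c : α ⊕ β → N), r = tpOver A j c) ∧
    (∀ φ ∈ restr A p, φ.relabel (Sum.map Sum.inl id) ∈ r) ∧
    (∀ φ ∈ restr A q, φ.relabel (Sum.map Sum.inr id) ∈ r) ∧
    ∀ (N : Type) [L.Structure N] (j : U ↪ₑ[L] N) (a : α → N) (b : β → N),
      tp j a = p → (∀ φ ∈ r, φ.Realize (Sum.elim (Sum.elim a b) (fun u : A => j u))) → tp j b = q

/-- `p` is an invariant global type. -/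
def InvType (κ : Cardinal.{0}) {α : Type} (p : Set (L.Formula (α ⊕ U))) : Prop :=
  IsGlobalType p ∧ ∃ A : Set U, #A < κ ∧ Invariant A p

/-- `t` is the product `p ⊗ q`. -/
def IsProd (κ : Cardinal.{0}) {α β : Type} (p : Set (L.Formula (α ⊕ U)))
    (q : Set (L.Formula (β ⊕ U))) (t : Set (L.Formula ((α ⊕ β) ⊕ U))) : Prop :=
  IsGlobalType t ∧ ∃ A : Set U, #A < κ ∧ Invariant A p ∧ IsTensor A p q t

/-- The product respects domination on the invariant types whose tuples of variables are indexed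
by the types in the class `C`. -/
def Respects (κ : Cardinal.{0}) (L : FirstOrder.Language.{0, 0}) (U : Type) [L.Structure U]
    (C : Type → Prop) : Prop :=
  ∀ α₁ α₂ β₁ β₂ : Type, C α₁ → C α₂ → C β₁ → C β₂ →
    ∀ (p₁ : Set (L.Formula (α₁ ⊕ U))) (p₂ : Set (L.Formula (α₂ ⊕ U)))
      (q₁ : Set (L.Formula (β₁ ⊕ U))) (q₂ : Set (L.Formula (β₂ ⊕ U))),
      InvType κ p₁ → InvType κ p₂ → InvType κ q₁ → InvType κ q₂ →
      Dominates κ p₁ q₁ → Dominates κ p₂ q₂ →
      ∀ (s : Set (L.Formula ((α₁ ⊕ α₂) ⊕ U))) (t : Set (L.Formula ((β₁ ⊕ β₂) ⊕ U))),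
        IsProd κ p₁ p₂ s → IsProd κ q₁ q₂ t → Dominates κ s t

end Pool.Agent.Q209.DM
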