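import Pool.Agent.Q209.DM.Star2

/-!
# The product respects domination on types in finitely many variables
-/

namespace Pool.Agent.Q209.DM

open FirstOrder FirstOrder.Language Cardinal Pool.Agent.Y562.NWO

section general

variable {L : FirstOrder.Language.{0, 0}} {U : Type} [L.Structure U] {κ : Cardinal.{0}}

theorem realizes_sub {N : Type} [L.Structure N] {k : U ↪ₑ[L] N} {α γ : Type} {z : α → N}
    {D : Set U} {v : α → U} (h : Realizes D (tp k z) v) (f : γ → α) :
    Realizes D (tp k (z ∘ f)) (v ∘ f) := by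
  intro φ
  have h1 := h (φ.relabel (Sum.map f id))
  rw [mem_tp, Formula.realize_relabel, Formula.realize_relabel, Sum.elim_comp_map,
    Sum.elim_comp_map] at h1
  rw [mem_tp]
  exact h1

theorem realizes_tensor {α β : Type} {p : Set (L.Formula (α ⊕ U))} {q : Set (L.Formula (β ⊕ U))}
    {r : Set (L.Formula ((α ⊕ β) ⊕ U))} (hp : IsGlobalType p) (hq : IsGlobalType q)
    (hr : IsGlobalType r) {A B : Set U} (hAB : A ⊆ B) (ht : IsTensor A p q r) {a : α → U}
    {b : β → U} (hb : Realizes B q b) (ha : Realizes (B ∪ Set.range b) p a) :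
    Realizes B r (Sum.elim a b) := by
  refine realizes_of_finite hr fun F hF φ => ?_
  have hsub : (F : Set U) ⊆ A ∪ F := Set.subset_union_right
  have h1 := (ht (F : Set U) F.finite_toSet).2 b (hb.mono hq (Set.union_subset hAB hF))
    (φ.relabel (Sum.map id (Set.inclusion hsub)))
  rw [relabel_mem_iff hr] at h1
  refine h1.trans ?_
  let g : (α ⊕ β) ⊕ (F : Set U) → α ⊕ (β ⊕ (F : Set U)) :=
    Sum.elim (Sum.elim Sum.inl (fun i => Sum.inr (Sum.inl i))) (fun u => Sum.inr (Sum.inr u))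
  have h2 := ha.apply hp (Sum.elim b (fun u : (F : Set U) => (u : U))) (by
    rintro (i | u)
    · exact Or.inr ⟨i, rfl⟩
    · exact Or.inl (hF u.2)) (φ.relabel g)
  have h3 : (φ.relabel g).Realize (Sum.elim a (Sum.elim b (fun u : (F : Set U) => (u : U)))) ↔
      φ.Realize (Sum.elim (Sum.elim a b) (fun u : (F : Set U) => (u : U))) := by
    rw [Formula.realize_relabel]
    have e : Sum.elim a (Sum.elim b (fun u : (F : Set U) => (u : U))) ∘ g =
        Sum.elim (Sum.elim a b) (fun u : (F : Set U) => (u : U)) := by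
      funext s; rcases s with (s | s) | s <;> rfl
    rw [e]
  refine Iff.trans ?_ (h2.trans h3)
  obtain ⟨N, _, j, a₀, rfl⟩ := hp
  change Formula.Realize _ _ ↔ Formula.Realize _ _
  rw [Formula.realize_relabel, Formula.realize_relabel, Formula.realize_relabel,
    Formula.realize_relabel]
  have e : ((Sum.elim a₀ j ∘ Sum.elim (Sum.map id b)
      (fun u : (A ∪ (F : Set U) : Set U) => Sum.inr (u : U))) ∘
        Sum.map id (Set.inclusion hsub)) =
      (Sum.elim a₀ j ∘ Sum.map id (Sum.elim b (fun u : (F : Set U) => (u : U)))) ∘ g := by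
    funext s; rcases s with (s | s) | s <;> rfl
  rw [e]

theorem tensor_inv (hU : IsMonster κ L U) {α β : Type} [Finite α] [Finite β]
    {p : Set (L.Formula (α ⊕ U))} {q : Set (L.Formula (β ⊕ U))}
    {r : Set (L.Formula ((α ⊕ β) ⊕ U))} (hp : IsGlobalType p) (hq : IsGlobalType q)
    (hr : IsGlobalType r) {A₀ A : Set U} (hA : #A < κ) (hAB : A₀ ⊆ A) (ht : IsTensor A₀ p q r)
    (ip : Invariant A p) (iq : Invariant A q) : Invariant A r := by
  classical
  intro σ hσ φ
  obtain ⟨F, ψ, hψ⟩ := finite_params φ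
  let B : Set U := A ∪ (F : Set U)
  have hB : #B < κ := small_union hU hA (small_finite hU F.finite_toSet)
  obtain ⟨b, hb⟩ := exists_realizes hU hq B hB
  obtain ⟨a, ha⟩ := exists_realizes hU hp (B ∪ Set.range b)
    (small_union hU hB (small_finite hU (Set.finite_range b)))
  have h1 : Realizes B r (Sum.elim a b) :=
    realizes_tensor hp hq hr (hAB.trans Set.subset_union_left) ht hb ha
  have hb' : Realizes (σ '' B) q (σ ∘ b) := hb.map hq iq σ hσ (fun d hd => hd)
  have ha' : Realizes (σ '' B ∪ Set.range (σ ∘ b)) p (σ ∘ a) := by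
    refine ha.map hp ip σ hσ (fun d hd => ?_)
    rcases hd with ⟨d', hd', rfl⟩ | ⟨i, rfl⟩
    · exact ⟨d', Or.inl hd', rfl⟩
    · exact ⟨b i, Or.inr ⟨i, rfl⟩, rfl⟩
  have h2 : Realizes (σ '' B) r (Sum.elim (σ ∘ a) (σ ∘ b)) := by
    refine realizes_tensor hp hq hr (fun x hx => ?_) ht hb' ha'
    exact ⟨x, Or.inl (hAB hx), hσ x (hAB hx)⟩
  have g1 := h1.apply hr (fun i : F => (i : U)) (fun i => Or.inr i.2) ψ
  have g2 := h2.apply hr (fun i : F => σ (i : U)) (fun i => ⟨i, Or.inr i.2, rfl⟩) ψ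
  have g3 : ψ.Realize (Sum.elim (Sum.elim a b) (fun i : F => (i : U))) ↔
      ψ.Realize (Sum.elim (Sum.elim (σ ∘ a) (σ ∘ b)) (fun i : F => σ (i : U))) := by
    rw [← StrongHomClass.realize_formula σ ψ]
    have e : σ ∘ Sum.elim (Sum.elim a b) (fun i : F => (i : U)) =
        Sum.elim (Sum.elim (σ ∘ a) (σ ∘ b)) (fun i : F => σ (i : U)) := by
      funext s; rcases s with (s | s) | s <;> rfl
    rw [e]
  obtain ⟨N, _, j, c, rfl⟩ := hr
  change Formula.Realize _ _ ↔ Formula.Realize _ _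
  rw [mem_tp] at g1 g2
  rw [Formula.realize_relabel, Sum.elim_comp_map, Function.comp_id, hψ N c j, hψ N c (j ∘ σ)]
  exact g1.trans (g3.trans g2.symm)

end general

variable {U : Type} [Lg.Structure U] {κ : Cardinal.{0}}

theorem sameA_of_finite {M N ι : Type} {D : Dat M} {E : Dat N} {v : ι → M} {w : ι → N} {f : U → M}
    {g : U → N} (h : ∀ F : Set U, F.Finite → ∃ B : Set U, F ⊆ B ∧
      SameA D E (Sum.elim v (fun u : B => f u)) (Sum.elim w (fun u : B => g u))) :
    SameA D E (Sum.elim v f) (Sum.elim w g) := by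
  classical
  have key : ∀ (n : ℕ) (t : Fin n → ι ⊕ U), ∃ B : Set U,
      SameA D E (Sum.elim v (fun u : B => f u)) (Sum.elim w (fun u : B => g u)) ∧
      ∃ t' : Fin n → ι ⊕ B, t = Sum.map id (fun u : B => (u : U)) ∘ t' := by
    intro n t
    obtain ⟨B, hB, h1⟩ := h {u | Sum.inr u ∈ Set.range t} (by
      refine Set.Finite.preimage (f := (Sum.inr : U → ι ⊕ U)) (Sum.inr_injective.injOn)
        (Set.finite_range t))
    refine ⟨B, h1, ?_⟩
    have h2 : ∀ i, ∃ s : ι ⊕ B, t i = Sum.map id (fun u : B => (u : U)) s := by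
      intro i
      rcases hi : t i with s | u
      · exact ⟨Sum.inl s, rfl⟩
      · exact ⟨Sum.inr ⟨u, hB ⟨i, hi⟩⟩, rfl⟩
    choose t' ht' using h2
    exact ⟨t', funext ht'⟩
  have e1 : ∀ B : Set U, Sum.elim v f ∘ Sum.map id (fun u : B => (u : U)) =
      Sum.elim v (fun u : B => f u) := by
    intro B; funext s; rcases s with s | s <;> rfl
  have e2 : ∀ B : Set U, Sum.elim w g ∘ Sum.map id (fun u : B => (u : U)) =
      Sum.elim w (fun u : B => g u) := by
    intro B; funext s; rcases s with s | s <;> rfl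
  refine ⟨fun s t => ?_, ext_rel fun n r t => ?_⟩
  · obtain ⟨B, h1, t', ht'⟩ := key 2 ![s, t]
    have h2 := h1.eq (t' 0) (t' 1)
    have h3 : s = Sum.map id (fun u : B => (u : U)) (t' 0) := congrFun ht' 0
    have h4 : t = Sum.map id (fun u : B => (u : U)) (t' 1) := congrFun ht' 1
    rw [h3, h4]
    have e1' := e1 B
    have e2' := e2 B
    rw [← e1', ← e2'] at h2
    exact h2
  · obtain ⟨B, h1, t', rfl⟩ := key n t
    rw [rel_pull, rel_pull, ← Function.comp_assoc, ← Function.comp_assoc, e1, e2]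
    exact h1.rel r t'

/-- changes not affecting the type of `a` over `U` and of `(a, b)` over `A` do not affect the type
of `b` over `U` -/
theorem stable (hU : U ⊨ Th) {A : Set U} {α β : Type} {p : Set (Lg.Formula (α ⊕ U))}
    {q : Set (Lg.Formula (β ⊕ U))} {N₀ : Type} [Lg.Structure N₀] {j₀ : U ↪ₑ[Lg] N₀}
    {c₀ : α ⊕ β → N₀}
    (H : ∀ (N : Type) [Lg.Structure N] (j : U ↪ₑ[Lg] N) (a : α → N) (b : β → N), tp j a = p →
      (∀ φ ∈ tpOver A j₀ c₀, φ.Realize (Sum.elim (Sum.elim a b) (fun u : A => j u))) → tp j b = q)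
    {N : Type} [Lg.Structure N] {j : U ↪ₑ[Lg] N} {a : α → N} {b : β → N} (ha : tp j a = p)
    (hr : ∀ φ ∈ tpOver A j₀ c₀, φ.Realize (Sum.elim (Sum.elim a b) (fun u : A => j u)))
    (G : Dat N) (hG : Good G)
    (h1 : G.pull (Sum.elim a j) = (dat N).pull (Sum.elim a j))
    (h2 : G.pull (Sum.elim (Sum.elim a b) (fun u : A => j u)) =
      (dat N).pull (Sum.elim (Sum.elim a b) (fun u : A => j u))) :
    G.pull (Sum.elim b j) = (dat N).pull (Sum.elim b j) := by
  have hb := H N j a b ha hr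
  have hjj : G.pull j = dat U := by
    rw [← pull_emb j]
    exact congrArg (fun E => E.pull Sum.inr) h1
  obtain ⟨N₂, _, j₂, e, he1, he2, he3⟩ := realize_ext hU G hG j (emb_inj j) hjj
  have hej : ∀ {ι : Type} (w : ι → N), G.pull w = (dat N).pull w →
      SameA (dat N) (dat N₂) w (e ∘ w) := by
    intro ι w hw
    refine ⟨fun i j => ⟨fun h => congrArg e h, fun h => he1 h⟩, ?_⟩
    rw [← pull_pull, he2, hw]
  have e1 : ∀ {γ : Type} (c : γ → N), e ∘ Sum.elim c j = Sum.elim (e ∘ c) j₂ := by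
    intro γ c; funext s; rcases s with s | s
    · rfl
    · exact he3 s
  have e2 : e ∘ Sum.elim (Sum.elim a b) (fun u : A => j u) =
      Sum.elim (Sum.elim (e ∘ a) (e ∘ b)) (fun u : A => j₂ u) := by
    funext s; rcases s with (s | s) | s
    · rfl
    · rfl
    · exact he3 s
  have g1 : tp j₂ (e ∘ a) = p := by
    rw [← ha]
    refine (tp_eq_iff hU _ _ _ _).2 (SameA.symm ?_)
    rw [← e1]
    exact hej _ h1
  have g2 := H N₂ j₂ (e ∘ a) (e ∘ b) g1 (by
    have h3 := (over_iff hU j₀ j _ _).1 hr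
    refine (over_iff hU j₀ j₂ _ _).2 (h3.trans ?_)
    rw [← e2]
    exact hej _ h2)
  rw [← hb] at g2
  have g3 := (tp_eq_iff hU _ _ _ _).1 g2
  rw [← g3.dt, ← e1, ← pull_pull, he2]

/-- a dominated point of kind `P` or `Q` belongs to `U` or to the dominating tuple -/
theorem nd (hU : U ⊨ Th) (hκ : IsMonster κ Lg U) {A : Set U} (hA : #A < κ) {α β : Type}
    [Finite α] [Finite β] {p : Set (Lg.Formula (α ⊕ U))}
    {q : Set (Lg.Formula (β ⊕ U))} {N₀ : Type} [Lg.Structure N₀] {j₀ : U ↪ₑ[Lg] N₀}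
    {c₀ : α ⊕ β → N₀}
    (H : ∀ (N : Type) [Lg.Structure N] (j : U ↪ₑ[Lg] N) (a : α → N) (b : β → N), tp j a = p →
      (∀ φ ∈ tpOver A j₀ c₀, φ.Realize (Sum.elim (Sum.elim a b) (fun u : A => j u))) → tp j b = q)
    {N : Type} [Lg.Structure N] {j : U ↪ₑ[Lg] N} {a : α → N} {b : β → N} (ha : tp j a = p)
    (hr : ∀ φ ∈ tpOver A j₀ c₀, φ.Realize (Sum.elim (Sum.elim a b) (fun u : A => j u)))
    (i : β) (hi : (dat N).p (b i) ∨ (dat N).q (b i)) :
    (∃ u, b i = j u) ∨ ∃ i', b i = a i' := by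
  classical
  by_contra hcon
  push Not at hcon
  obtain ⟨hbj, hba⟩ := hcon
  have gN := good_of_model (ext_model hU j)
  -- an index which does not occur
  obtain ⟨n, hn0, hn⟩ : ∃ n : ℕ, n ≠ 0 ∧ ∀ s : α ⊕ β, ¬ (dat N).x n (Sum.elim a b s) := by
    have hfin : ((⋃ s : α ⊕ β, {n | (dat N).x n (Sum.elim a b s)}) ∪ {0}).Finite := by
      refine Set.Finite.union (Set.finite_iUnion fun s => ?_) (Set.finite_singleton 0)
      refine Set.Subsingleton.finite ?_
      intro m hm m' hm'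
      by_contra hne
      exact gN.xx m m' _ hne hm hm'
    obtain ⟨n, hn⟩ := hfin.infinite_compl.nonempty
    refine ⟨n, fun h => hn (Or.inr h), fun s h => hn (Or.inl ?_)⟩
    exact Set.mem_iUnion.2 ⟨s, h⟩
  -- the set to avoid
  let F : Set U := {u | j u ∈ Set.range (Sum.elim a b)}
  have hF : F.Finite := Set.Finite.preimage (emb_inj j).injOn (Set.finite_range _)
  have hB : #(A ∪ F : Set U) < κ := small_union hκ hA (small_finite hκ hF)
  obtain ⟨M, _, ⟨Z⟩⟩ := exists_Rz hU
  have hAF : ∀ u ∈ A, u ∈ A ∪ F := fun u hu => Or.inl hu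
  have jq : ∀ u, (dat N).q (j u) ↔ (dat U).q u := fun u => ((sameA_emb j).fq u).symm
  have jp : ∀ u, (dat N).p (j u) ↔ (dat U).p u := fun u => ((sameA_emb j).fp u).symm
  rcases hi with hi | hi
  · -- kind `P`
    obtain ⟨a₀, ha₀⟩ := exists_realizes hκ (Z.global (fun _ : Unit => V.a)) _ hB
    have H3 := (realizes_iff hU Z.j _ _).1 ha₀
    have hq0 : (dat U).q (a₀ ()) := (H3.fq (Sum.inl ())).1 ((Z.fq (Sum.inl V.a)).2 trivial)
    have hnot : a₀ () ∉ A ∪ F := by
      intro h
      have h1 := (H3.eq (Sum.inl ()) (Sum.inr ⟨a₀ (), h⟩)).2 rfl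
      change Z.e (Sum.inl V.a) = Z.j (a₀ ()) at h1
      rw [← Z.ej] at h1
      have := Z.inj h1
      simp at this
    have hh0 : ∀ u ∈ A, ¬ (dat U).h n u (a₀ ()) := by
      intro u hu h
      have h1 := (H3.fh n (Sum.inr ⟨u, hAF u hu⟩) (Sum.inl ())).2 h
      change (dat M).h n (Z.j u) (Z.e (Sum.inl V.a)) at h1
      rw [← Z.ej, Z.fh] at h1
      exact h1
    obtain ⟨x₀, hx₀⟩ : ∃ x₀, x₀ = a₀ () := ⟨_, rfl⟩
    rw [← hx₀] at hq0 hnot hh0
    let C : ℕ → N → N → Prop := fun m z y => m = n ∧ y = b i ∧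
      (z = j x₀ ∨ ((dat N).x n z ∧ ∀ u ∈ A, z ≠ j u))
    let G : Dat N := { dat N with
      l := fun m z y => (C m z y ∧ z = j x₀ ∧ ¬ (dat N).l m z y) ∨ (¬ C m z y ∧ (dat N).l m z y) }
    have hG : Good G :=
      { pq := gN.pq, px := gN.px, qx := gN.qx, xx := gN.xx, hx := gN.hx, hz := gN.hz
        rq := gN.rq, rp := gN.rp, rb := gN.rb
        lp := by
          rintro m z y (⟨⟨-, rfl, -⟩, -, -⟩ | ⟨-, h⟩)
          · exact hi
          · exact gN.lp _ _ _ h
        lz := by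
          rintro m z y (⟨⟨-, rfl, -⟩, rfl, -⟩ | ⟨-, h⟩)
          · exact Or.inl ((jq x₀).2 hq0)
          · exact gN.lz _ _ _ h
        hl := by
          intro m x z y h1 h2 h3
          change (dat N).h m x z at h1
          have hx : (dat N).x m x := gN.hx _ _ _ h1
          have hne : x ≠ j x₀ := by
            rintro rfl
            exact gN.qx _ _ ((jq x₀).2 hq0) hx
          rcases h2 with ⟨-, h2, -⟩ | ⟨h2, h2'⟩
          · exact hne h2
          · rcases h3 with ⟨⟨rfl, rfl, -⟩, rfl, -⟩ | ⟨-, h3⟩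
            · have h4 : ∃ u ∈ A, x = j u := by
                by_contra h4
                push Not at h4
                exact h2 ⟨rfl, rfl, Or.inr ⟨hx, h4⟩⟩
              obtain ⟨u, hu, rfl⟩ := h4
              exact hh0 u hu (((sameA_emb j).fh _ u x₀).2 h1)
            · exact gN.hl _ _ _ _ h1 h2' h3
        rl := by
          intro x y z h
          refine Or.inr ⟨fun h' => hn0 h'.1.symm, gN.rl _ _ _ h⟩ }
    have hpull : ∀ {ι : Type} (w : ι → N), (∀ i j m, ¬ C m (w i) (w j)) →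
        G.pull w = (dat N).pull w := by
      intro ι w hw
      refine dext (fun _ => Iff.rfl) (fun _ => Iff.rfl) (fun _ _ => Iff.rfl) (fun m s t => ?_)
        (fun _ _ _ => Iff.rfl) (fun _ _ _ => Iff.rfl)
      constructor
      · rintro (⟨h, -⟩ | ⟨-, h⟩)
        · exact (hw _ _ _ h).elim
        · exact h
      · intro h
        exact Or.inr ⟨hw _ _ _, h⟩
    have h1 := stable hU H ha hr G hG (hpull _ (by
      rintro s (t | t) m ⟨-, h, -⟩
      · exact hba t h.symm
      · exact hbj t h.symm)) (hpull _ (by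
      rintro (s | s) t m ⟨-, -, h | h⟩
      · exact hnot (Or.inr ⟨s, h⟩)
      · exact hn s h.1
      · have h5 := emb_inj j h
        exact hnot (Or.inl (h5 ▸ s.2))
      · exact h.2 s s.2 rfl))
    have h2 : G.l n (j x₀) (b i) ↔ (dat N).l n (j x₀) (b i) :=
      iff_of_eq (congrArg (fun E => E.l n (Sum.inr x₀) (Sum.inl i)) h1)
    have hC : C n (j x₀) (b i) := ⟨rfl, rfl, Or.inl rfl⟩
    by_cases h3 : (dat N).l n (j x₀) (b i)
    · rcases h2.2 h3 with ⟨-, -, h4⟩ | ⟨h4, -⟩
      · exact h4 h3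
      · exact h4 hC
    · exact h3 (h2.1 (Or.inl ⟨hC, rfl, h3⟩))
  · -- kind `Q`
    obtain ⟨a₀, ha₀⟩ := exists_realizes hκ (Z.global (fun _ : Unit => V.y)) _ hB
    have H3 := (realizes_iff hU Z.j _ _).1 ha₀
    have hq0 : (dat U).p (a₀ ()) := (H3.fp (Sum.inl ())).1 ((Z.fp (Sum.inl V.y)).2 trivial)
    have hnot : a₀ () ∉ A ∪ F := by
      intro h
      have h1 := (H3.eq (Sum.inl ()) (Sum.inr ⟨a₀ (), h⟩)).2 rfl
      change Z.e (Sum.inl V.y) = Z.j (a₀ ()) at h1
      rw [← Z.ej] at h1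
      have := Z.inj h1
      simp at this
    have hh0 : ∀ u ∈ A, ¬ (dat U).l n u (a₀ ()) := by
      intro u hu h
      have h1 := (H3.fl n (Sum.inr ⟨u, hAF u hu⟩) (Sum.inl ())).2 h
      change (dat M).l n (Z.j u) (Z.e (Sum.inl V.y)) at h1
      rw [← Z.ej, Z.fl] at h1
      exact h1
    obtain ⟨y₀, hy₀⟩ : ∃ y₀, y₀ = a₀ () := ⟨_, rfl⟩
    rw [← hy₀] at hq0 hnot hh0
    let C : ℕ → N → N → Prop := fun m z y => m = n ∧ z = b i ∧ y = j y₀
    let C' : ℕ → N → N → Prop := fun m x z => m = n ∧ z = b i ∧ ∀ u ∈ A, x ≠ j u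
    let G : Dat N := { dat N with
      l := fun m z y => (C m z y ∧ ¬ (dat N).l m z y) ∨ (¬ C m z y ∧ (dat N).l m z y)
      h := fun m x z => ¬ C' m x z ∧ (dat N).h m x z }
    have hG : Good G :=
      { pq := gN.pq, px := gN.px, qx := gN.qx, xx := gN.xx,
        hx := fun m x z h => gN.hx m x z h.2, hz := fun m x z h => gN.hz m x z h.2
        rq := gN.rq, rp := gN.rp, rb := gN.rb
        lp := by
          rintro m z y (⟨⟨-, -, rfl⟩, -⟩ | ⟨-, h⟩)
          · exact (jp y₀).2 hq0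
          · exact gN.lp _ _ _ h
        lz := by
          rintro m z y (⟨⟨-, rfl, -⟩, -⟩ | ⟨-, h⟩)
          · exact Or.inl hi
          · exact gN.lz _ _ _ h
        hl := by
          intro m x z y h1 h2 h3
          obtain ⟨h1, h1'⟩ := h1
          have hx : (dat N).x m x := gN.hx _ _ _ h1'
          have hne : x ≠ b i := by
            rintro rfl
            exact gN.qx _ _ hi hx
          rcases h2 with ⟨⟨-, h2, -⟩, -⟩ | ⟨-, h2'⟩
          · exact hne h2
          · rcases h3 with ⟨⟨rfl, rfl, rfl⟩, -⟩ | ⟨-, h3⟩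
            · have h4 : ∃ u ∈ A, x = j u := by
                by_contra h4
                push Not at h4
                exact h1 ⟨rfl, rfl, h4⟩
              obtain ⟨u, hu, rfl⟩ := h4
              exact hh0 u hu (((sameA_emb j).fl _ u y₀).2 h2')
            · exact gN.hl _ _ _ _ h1' h2' h3
        rl := by
          intro x y z h
          refine Or.inr ⟨fun h' => hn0 h'.1.symm, gN.rl _ _ _ h⟩ }
    have hpull : ∀ {ι : Type} (w : ι → N), (∀ i j m, ¬ C m (w i) (w j)) →
        (∀ i j m, C' m (w i) (w j) → ¬ (dat N).h m (w i) (w j)) →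
        G.pull w = (dat N).pull w := by
      intro ι w hw hw'
      refine dext (fun _ => Iff.rfl) (fun _ => Iff.rfl) (fun _ _ => Iff.rfl) (fun m s t => ?_)
        (fun m s t => ?_) (fun _ _ _ => Iff.rfl)
      · constructor
        · rintro (⟨h, -⟩ | ⟨-, h⟩)
          · exact (hw _ _ _ h).elim
          · exact h
        · intro h
          exact Or.inr ⟨hw _ _ _, h⟩
      · constructor
        · rintro ⟨-, h⟩
          exact h
        · intro h
          exact ⟨fun h' => hw' _ _ _ h' h, h⟩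
    have h1 := stable hU H ha hr G hG (hpull _ (by
      rintro (t | t) s m ⟨-, h, -⟩
      · exact hba t h.symm
      · exact hbj t h.symm) (by
      rintro s (t | t) m ⟨-, h, -⟩
      · exact (hba t h.symm).elim
      · exact (hbj t h.symm).elim)) (hpull _ (by
      rintro t (s | s) m ⟨-, -, h⟩
      · exact hnot (Or.inr ⟨s, h⟩)
      · have h5 := emb_inj j h
        exact hnot (Or.inl (h5 ▸ s.2))) (by
      rintro (s | s) t m ⟨rfl, -, h⟩ h'
      · exact hn s (gN.hx _ _ _ h')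
      · exact h s s.2 rfl))
    have h2 : G.l n (b i) (j y₀) ↔ (dat N).l n (b i) (j y₀) :=
      iff_of_eq (congrArg (fun E => E.l n (Sum.inl i) (Sum.inr y₀)) h1)
    have hC : C n (b i) (j y₀) := ⟨rfl, rfl, rfl⟩
    by_cases h3 : (dat N).l n (b i) (j y₀)
    · rcases h2.2 h3 with ⟨-, h4⟩ | ⟨h4, -⟩
      · exact h4 h3
      · exact h4 hC
    · exact h3 (h2.1 (Or.inl ⟨hC, h3⟩))

end Pool.Agent.Q209.DM
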