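import Pool.Agent.Q209.DM.Fin

/-!
# The product respects domination on types in finitely many variables, conclusion
-/

namespace Pool.Agent.Q209.DM

open FirstOrder FirstOrder.Language Cardinal Pool.Agent.Y562.NWO

variable {U : Type} [Lg.Structure U] {κ : Cardinal.{0}}

theorem respects_fin (hU : U ⊨ Th) (hκ : IsMonster κ Lg U) :
    Respects κ Lg U (fun α => Finite α) := by
  classical
  intro α₁ α₂ β₁ β₂ _ _ _ _ p₁ p₂ q₁ q₂ tp₁ tp₂ tq₁ tq₂ d₁ d₂ s t hs ht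
  obtain ⟨gs, As, hAs, -, Ts⟩ := hs
  obtain ⟨gt, At, hAt, -, Tt⟩ := ht
  obtain ⟨A₁, hA₁, ip₁, iq₁, r₁, ⟨N₁, _, j₁, c₁, rfl⟩, hr₁, -, H₁⟩ := d₁
  obtain ⟨A₂, hA₂, ip₂, iq₂, r₂, ⟨N₂, _, j₂, c₂, rfl⟩, hr₂, -, H₂⟩ := d₂
  have := nonempty_of_model hU
  obtain ⟨A, hAdef⟩ : ∃ A : Set U, A = (A₁ ∪ A₂) ∪ (As ∪ At) := ⟨_, rfl⟩
  have hA : #A < κ := by
    rw [hAdef]
    exact small_union hκ (small_union hκ hA₁ hA₂) (small_union hκ hAs hAt)
  have hA₁A : A₁ ⊆ A := by rw [hAdef]; exact Set.subset_union_left.trans Set.subset_union_left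
  have hA₂A : A₂ ⊆ A := by rw [hAdef]; exact Set.subset_union_right.trans Set.subset_union_left
  have hAsA : As ⊆ A := by rw [hAdef]; exact Set.subset_union_left.trans Set.subset_union_right
  have hAtA : At ⊆ A := by rw [hAdef]; exact Set.subset_union_right.trans Set.subset_union_right
  -- joint realisations
  obtain ⟨M₁, _, k₁, x₁, y₁, hx₁, hz₁⟩ := exists_joint tp₁.1 j₁ c₁ hr₁
  obtain ⟨M₂, _, k₂, x₂, y₂, hx₂, hz₂⟩ := exists_joint tp₂.1 j₂ c₂ hr₂
  have hy₁ : tp k₁ y₁ = q₁ := H₁ M₁ k₁ x₁ y₁ hx₁ hz₁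
  have hy₂ : tp k₂ y₂ = q₂ := H₂ M₂ k₂ x₂ y₂ hx₂ hz₂
  have R₁ := (over_iff hU j₁ k₁ _ _).1 hz₁
  have R₂ := (over_iff hU j₂ k₂ _ _).1 hz₂
  -- configurations
  have cfg : ∀ B : Set U, A ⊆ B → #B < κ → ∃ (v₁ : α₁ ⊕ β₁ → U) (v₂ : α₂ ⊕ β₂ → U),
      SameA (dat M₁) (dat U) (Sum.elim (Sum.elim x₁ y₁) (fun u : B => k₁ u))
        (Sum.elim v₁ (fun u : B => (u : U))) ∧
      SameA (dat M₂) (dat U) (Sum.elim (Sum.elim x₂ y₂) (fun u : B => k₂ u))
        (Sum.elim v₂ (fun u : B => (u : U))) ∧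
      Realizes B s (Sum.elim (v₁ ∘ Sum.inl) (v₂ ∘ Sum.inl)) ∧
      Realizes B t (Sum.elim (v₁ ∘ Sum.inr) (v₂ ∘ Sum.inr)) := by
    intro B hAB hB
    obtain ⟨v₂, hv₂⟩ := exists_realizes hκ (p := tp k₂ (Sum.elim x₂ y₂)) ⟨M₂, _, k₂, _, rfl⟩ B hB
    obtain ⟨v₁, hv₁⟩ := exists_realizes hκ (p := tp k₁ (Sum.elim x₁ y₁)) ⟨M₁, _, k₁, _, rfl⟩
      (B ∪ Set.range v₂) (small_union hκ hB (small_finite hκ (Set.finite_range v₂)))
    have a₂ : Realizes B p₂ (v₂ ∘ Sum.inl) := by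
      have := realizes_sub hv₂ Sum.inl
      rw [Sum.elim_comp_inl, hx₂] at this
      exact this
    have b₂ : Realizes B q₂ (v₂ ∘ Sum.inr) := by
      have := realizes_sub hv₂ Sum.inr
      rw [Sum.elim_comp_inr, hy₂] at this
      exact this
    have a₁ : Realizes (B ∪ Set.range v₂) p₁ (v₁ ∘ Sum.inl) := by
      have := realizes_sub hv₁ Sum.inl
      rw [Sum.elim_comp_inl, hx₁] at this
      exact this
    have b₁ : Realizes (B ∪ Set.range v₂) q₁ (v₁ ∘ Sum.inr) := by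
      have := realizes_sub hv₁ Sum.inr
      rw [Sum.elim_comp_inr, hy₁] at this
      exact this
    have hv₁' := hv₁.mono ⟨M₁, _, k₁, _, rfl⟩ (Set.subset_union_left (s := B))
    refine ⟨v₁, v₂, (realizes_iff hU _ _ _).1 hv₁', (realizes_iff hU _ _ _).1 hv₂, ?_, ?_⟩
    · refine realizes_tensor tp₁.1 tp₂.1 gs (hAsA.trans hAB) Ts a₂ (a₁.mono tp₁.1 ?_)
      refine Set.union_subset_union_right B ?_
      rintro _ ⟨i, rfl⟩
      exact ⟨_, rfl⟩
    · refine realizes_tensor tq₁.1 tq₂.1 gt (hAtA.trans hAB) Tt b₂ (b₁.mono tq₁.1 ?_)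
      refine Set.union_subset_union_right B ?_
      rintro _ ⟨i, rfl⟩
      exact ⟨_, rfl⟩
  obtain ⟨w₁, w₂, W₁, W₂, Ws, Wt⟩ := cfg A subset_rfl hA
  refine ⟨A, hA, tensor_inv hκ tp₁.1 tp₂.1 gs hA hAsA Ts (invariant_mono hA₁A ip₁)
    (invariant_mono hA₂A ip₂), tensor_inv hκ tq₁.1 tq₂.1 gt hA hAtA Tt (invariant_mono hA₁A iq₁)
    (invariant_mono hA₂A iq₂), tpOver A (ElementaryEmbedding.refl Lg U)
      (Sum.elim (Sum.elim (w₁ ∘ Sum.inl) (w₂ ∘ Sum.inl)) (Sum.elim (w₁ ∘ Sum.inr) (w₂ ∘ Sum.inr))),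
      ⟨U, _, _, _, rfl⟩, ?_, ?_, ?_⟩
  · intro φ hφ
    have h1 := (Ws φ).1 hφ
    change Formula.Realize _ _
    rw [Formula.realize_relabel]
    have e : Sum.elim (Sum.elim (Sum.elim (w₁ ∘ Sum.inl) (w₂ ∘ Sum.inl))
        (Sum.elim (w₁ ∘ Sum.inr) (w₂ ∘ Sum.inr)))
        (fun u : A => ElementaryEmbedding.refl Lg U u) ∘ Sum.map Sum.inl id =
        Sum.elim (Sum.elim (w₁ ∘ Sum.inl) (w₂ ∘ Sum.inl)) (fun u : A => (u : U)) := by
      funext s; rcases s with s | s <;> rfl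
    rw [e]
    exact h1
  · intro φ hφ
    have h1 := (Wt φ).1 hφ
    change Formula.Realize _ _
    rw [Formula.realize_relabel]
    have e : Sum.elim (Sum.elim (Sum.elim (w₁ ∘ Sum.inl) (w₂ ∘ Sum.inl))
        (Sum.elim (w₁ ∘ Sum.inr) (w₂ ∘ Sum.inr)))
        (fun u : A => ElementaryEmbedding.refl Lg U u) ∘ Sum.map Sum.inr id =
        Sum.elim (Sum.elim (w₁ ∘ Sum.inr) (w₂ ∘ Sum.inr)) (fun u : A => (u : U)) := by
      funext s; rcases s with s | s <;> rfl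
    rw [e]
    exact h1
  · intro N _ j a b ha hr
    have R := (over_iff hU (ElementaryEmbedding.refl Lg U) j _ _).1 hr
    have gN := good_of_model (ext_model hU j)
    have gU := good_of_model hU
    obtain ⟨Nt, _, jt, ct, rfl⟩ := gt
    obtain ⟨Ns, _, js, cs, rfl⟩ := gs
    have Sa := (tp_eq_iff hU _ _ _ _).1 ha
    -- restriction of an equivalence over `U` to `B`
    have rs : ∀ {γ M M' : Type} {D : Dat M} {E : Dat M'} {v : γ → M} {w : γ → M'} {f : U → M}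
        {g : U → M'} (B : Set U), SameA D E (Sum.elim v f) (Sum.elim w g) →
        SameA D E (Sum.elim v (fun u : B => f u)) (Sum.elim w (fun u : B => g u)) := by
      intro γ M M' D E v w f g B h
      have h1 := h.comp (Sum.map id (fun u : B => (u : U)))
      have e1 : Sum.elim v f ∘ Sum.map id (fun u : B => (u : U)) =
          Sum.elim v (fun u : B => f u) := by
        funext s; rcases s with s | s <;> rfl
      have e2 : Sum.elim w g ∘ Sum.map id (fun u : B => (u : U)) =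
          Sum.elim w (fun u : B => g u) := by
        funext s; rcases s with s | s <;> rfl
      rw [e1, e2] at h1
      exact h1
    -- restriction to subtuples
    have sub : ∀ {γ δ M M' K : Type} {D : Dat M} {E : Dat M'} {v : γ → M} {w : γ → M'} {f : K → M}
        {g : K → M'} (ρ : δ → γ), SameA D E (Sum.elim v f) (Sum.elim w g) →
        SameA D E (Sum.elim (v ∘ ρ) f) (Sum.elim (w ∘ ρ) g) := by
      intro γ δ M M' K D E v w f g ρ h
      have h1 := h.comp (Sum.map ρ id)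
      have e1 : Sum.elim v f ∘ Sum.map ρ id = Sum.elim (v ∘ ρ) f := by
        funext s; rcases s with s | s <;> rfl
      have e2 : Sum.elim w g ∘ Sum.map ρ id = Sum.elim (w ∘ ρ) g := by
        funext s; rcases s with s | s <;> rfl
      rw [e1, e2] at h1
      exact h1
    -- the tuple `a` against a configuration
    have K4 : ∀ (B : Set U) (v₁ : α₁ ⊕ β₁ → U) (v₂ : α₂ ⊕ β₂ → U),
        Realizes B (tp js cs) (Sum.elim (v₁ ∘ Sum.inl) (v₂ ∘ Sum.inl)) →
        SameA (dat N) (dat U) (Sum.elim a (fun u : B => j u))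
          (Sum.elim (Sum.elim (v₁ ∘ Sum.inl) (v₂ ∘ Sum.inl)) (fun u : B => (u : U))) :=
      fun B v₁ v₂ h => (rs B Sa).trans ((realizes_iff hU js cs _).1 h)
    -- the type of `a ∘ inl` is `p₁`
    have P₁ : tp j (a ∘ Sum.inl) = p₁ := by
      rw [← hx₁]
      refine (tp_eq_iff hU _ _ _ _).2 (sameA_of_finite fun F hF => ?_)
      obtain ⟨v₁, v₂, V₁, V₂, Vs, -⟩ := cfg (A ∪ F) Set.subset_union_left
        (small_union hκ hA (small_finite hκ hF))
      refine ⟨A ∪ F, Set.subset_union_right, ?_⟩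
      have h1 := sub Sum.inl (K4 _ v₁ v₂ Vs)
      have h2 := sub Sum.inl V₁
      rw [Sum.elim_comp_inl] at h1 h2
      exact h1.trans h2.symm
    have P₂ : tp j (a ∘ Sum.inr) = p₂ := by
      rw [← hx₂]
      refine (tp_eq_iff hU _ _ _ _).2 (sameA_of_finite fun F hF => ?_)
      obtain ⟨v₁, v₂, V₁, V₂, Vs, -⟩ := cfg (A ∪ F) Set.subset_union_left
        (small_union hκ hA (small_finite hκ hF))
      refine ⟨A ∪ F, Set.subset_union_right, ?_⟩
      have h1 := sub Sum.inr (K4 _ v₁ v₂ Vs)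
      have h2 := sub Sum.inl V₂
      rw [Sum.elim_comp_inr] at h1
      rw [Sum.elim_comp_inl] at h2
      exact h1.trans h2.symm
    -- the pairs `(a ∘ inl, b ∘ inl)` and `(a ∘ inr, b ∘ inr)`
    have Q₁ : SameA (dat M₁) (dat N) (Sum.elim (Sum.elim x₁ y₁) (fun u : A => k₁ u))
        (Sum.elim (Sum.elim (a ∘ Sum.inl) (b ∘ Sum.inl)) (fun u : A => j u)) := by
      refine W₁.trans ?_
      have h1 := sub (Sum.elim (fun i : α₁ => (Sum.inl (Sum.inl i) : (α₁ ⊕ α₂) ⊕ (β₁ ⊕ β₂)))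
        (fun i : β₁ => Sum.inr (Sum.inl i))) R
      have e1 : (Sum.elim (Sum.elim (w₁ ∘ Sum.inl) (w₂ ∘ Sum.inl))
          (Sum.elim (w₁ ∘ Sum.inr) (w₂ ∘ Sum.inr))) ∘
          (Sum.elim (fun i : α₁ => (Sum.inl (Sum.inl i) : (α₁ ⊕ α₂) ⊕ (β₁ ⊕ β₂)))
        (fun i : β₁ => Sum.inr (Sum.inl i))) = w₁ := by
        funext s; rcases s with s | s <;> rfl
      have e2 : (Sum.elim a b) ∘
          (Sum.elim (fun i : α₁ => (Sum.inl (Sum.inl i) : (α₁ ⊕ α₂) ⊕ (β₁ ⊕ β₂)))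
        (fun i : β₁ => Sum.inr (Sum.inl i))) = Sum.elim (a ∘ Sum.inl) (b ∘ Sum.inl) := by
        funext s; rcases s with s | s <;> rfl
      rw [e1, e2] at h1
      exact h1
    have Q₂ : SameA (dat M₂) (dat N) (Sum.elim (Sum.elim x₂ y₂) (fun u : A => k₂ u))
        (Sum.elim (Sum.elim (a ∘ Sum.inr) (b ∘ Sum.inr)) (fun u : A => j u)) := by
      refine W₂.trans ?_
      have h1 := sub (Sum.elim (fun i : α₂ => (Sum.inl (Sum.inr i) : (α₁ ⊕ α₂) ⊕ (β₁ ⊕ β₂)))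
        (fun i : β₂ => Sum.inr (Sum.inr i))) R
      have e1 : (Sum.elim (Sum.elim (w₁ ∘ Sum.inl) (w₂ ∘ Sum.inl))
          (Sum.elim (w₁ ∘ Sum.inr) (w₂ ∘ Sum.inr))) ∘
          (Sum.elim (fun i : α₂ => (Sum.inl (Sum.inr i) : (α₁ ⊕ α₂) ⊕ (β₁ ⊕ β₂)))
        (fun i : β₂ => Sum.inr (Sum.inr i))) = w₂ := by
        funext s; rcases s with s | s <;> rfl
      have e2 : (Sum.elim a b) ∘
          (Sum.elim (fun i : α₂ => (Sum.inl (Sum.inr i) : (α₁ ⊕ α₂) ⊕ (β₁ ⊕ β₂)))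
        (fun i : β₂ => Sum.inr (Sum.inr i))) = Sum.elim (a ∘ Sum.inr) (b ∘ Sum.inr) := by
        funext s; rcases s with s | s <;> rfl
      rw [e1, e2] at h1
      exact h1
    -- restriction of an equivalence over `A` to a subset
    have rsA : ∀ {γ M M' : Type} {D : Dat M} {E : Dat M'} {v : γ → M} {w : γ → M'} {f : U → M}
        {g : U → M'} {B : Set U}, B ⊆ A → SameA D E (Sum.elim v (fun u : A => f u))
          (Sum.elim w (fun u : A => g u)) →
        SameA D E (Sum.elim v (fun u : B => f u)) (Sum.elim w (fun u : B => g u)) := by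
      intro γ M M' D E v w f g B hB h
      have h1 := h.comp (Sum.map id (Set.inclusion hB))
      have e1 : Sum.elim v (fun u : A => f u) ∘ Sum.map id (Set.inclusion hB) =
          Sum.elim v (fun u : B => f u) := by
        funext s; rcases s with s | s <;> rfl
      have e2 : Sum.elim w (fun u : A => g u) ∘ Sum.map id (Set.inclusion hB) =
          Sum.elim w (fun u : B => g u) := by
        funext s; rcases s with s | s <;> rfl
      rw [e1, e2] at h1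
      exact h1
    have r1 := (over_iff hU j₁ j _ _).2 (R₁.trans (rsA hA₁A Q₁))
    have r2 := (over_iff hU j₂ j _ _).2 (R₂.trans (rsA hA₂A Q₂))
    have B₁ : tp j (b ∘ Sum.inl) = q₁ := H₁ N j _ _ P₁ r1
    have B₂ : tp j (b ∘ Sum.inr) = q₂ := H₂ N j _ _ P₂ r2
    have nd₁ := nd hU hκ hA₁ H₁ P₁ r1
    have nd₂ := nd hU hκ hA₂ H₂ P₂ r2
    have T₁ : SameA (dat N) (dat M₁) (Sum.elim (b ∘ Sum.inl) j) (Sum.elim y₁ k₁) :=
      (tp_eq_iff hU _ _ _ _).1 (B₁.trans hy₁.symm)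
    have T₂ : SameA (dat N) (dat M₂) (Sum.elim (b ∘ Sum.inr) j) (Sum.elim y₂ k₂) :=
      (tp_eq_iff hU _ _ _ _).1 (B₂.trans hy₂.symm)
    -- conclusion
    refine (tp_eq_iff hU _ _ _ _).2 (sameA_of_finite fun F hF => ?_)
    have hG : {u | j u ∈ Set.range b}.Finite :=
      Set.Finite.preimage (emb_inj j).injOn (Set.finite_range _)
    obtain ⟨B, hBdef⟩ : ∃ B : Set U, B = A ∪ (F ∪ {u | j u ∈ Set.range b}) := ⟨_, rfl⟩
    have hAB : A ⊆ B := by rw [hBdef]; exact Set.subset_union_left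
    have hFB : F ⊆ B := by
      rw [hBdef]; exact Set.subset_union_left.trans Set.subset_union_right
    have hbB : ∀ u, j u ∈ Set.range b → u ∈ B := by
      intro u hu; rw [hBdef]; exact Or.inr (Or.inr hu)
    have hB : #B < κ := by
      rw [hBdef]
      exact small_union hκ hA (small_finite hκ (hF.union hG))
    obtain ⟨v₁, v₂, V₁, V₂, Vs, Vt⟩ := cfg B hAB hB
    refine ⟨B, hFB, ?_⟩
    have Vt' := (realizes_iff hU jt ct _).1 Vt
    refine SameA.trans ?_ Vt'.symm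
    -- the six partial equivalences
    have L1 : SameA (dat N) (dat U) (Sum.elim (b ∘ Sum.inl) (fun u : B => j u))
        (Sum.elim (v₁ ∘ Sum.inr) (fun u : B => (u : U))) := by
      have h2 := sub Sum.inr V₁
      rw [Sum.elim_comp_inr] at h2
      exact (rs B T₁).trans h2
    have L2 : SameA (dat N) (dat U) (Sum.elim (b ∘ Sum.inr) (fun u : B => j u))
        (Sum.elim (v₂ ∘ Sum.inr) (fun u : B => (u : U))) := by
      have h2 := sub Sum.inr V₂
      rw [Sum.elim_comp_inr] at h2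
      exact (rs B T₂).trans h2
    have L3 : SameA (dat N) (dat U) b (Sum.elim (v₁ ∘ Sum.inr) (v₂ ∘ Sum.inr)) := by
      have h1 : SameA (dat U) (dat N) (Sum.elim (w₁ ∘ Sum.inr) (w₂ ∘ Sum.inr)) b :=
        R.comp (fun i => Sum.inl (Sum.inr i))
      have h2 : SameA (dat Nt) (dat U) ct (Sum.elim (w₁ ∘ Sum.inr) (w₂ ∘ Sum.inr)) :=
        ((realizes_iff hU jt ct _).1 Wt).comp Sum.inl
      have h3 : SameA (dat Nt) (dat U) ct (Sum.elim (v₁ ∘ Sum.inr) (v₂ ∘ Sum.inr)) :=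
        Vt'.comp Sum.inl
      exact (h1.symm.trans h2.symm).trans h3
    have L4 := K4 B v₁ v₂ Vs
    have L5 : SameA (dat N) (dat U) (Sum.elim (a ∘ Sum.inl) (b ∘ Sum.inl)) v₁ := by
      have h1 : SameA (dat M₁) (dat N) (Sum.elim x₁ y₁) (Sum.elim (a ∘ Sum.inl) (b ∘ Sum.inl)) :=
        Q₁.comp Sum.inl
      have h2 : SameA (dat M₁) (dat U) (Sum.elim x₁ y₁) v₁ := V₁.comp Sum.inl
      exact h1.symm.trans h2
    have L6 : SameA (dat N) (dat U) (Sum.elim (a ∘ Sum.inr) (b ∘ Sum.inr)) v₂ := by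
      have h1 : SameA (dat M₂) (dat N) (Sum.elim x₂ y₂) (Sum.elim (a ∘ Sum.inr) (b ∘ Sum.inr)) :=
        Q₂.comp Sum.inl
      have h2 : SameA (dat M₂) (dat U) (Sum.elim x₂ y₂) v₂ := V₂.comp Sum.inl
      exact h1.symm.trans h2
    -- names
    obtain ⟨η, hη⟩ : ∃ η, η = Sum.elim b (fun u : B => j u) := ⟨_, rfl⟩
    obtain ⟨η', hη'⟩ : ∃ η', η' = Sum.elim (Sum.elim (v₁ ∘ Sum.inr) (v₂ ∘ Sum.inr))
      (fun u : B => (u : U)) := ⟨_, rfl⟩
    rw [← hη, ← hη']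
    -- pairs
    have pair : ∀ s t : (β₁ ⊕ β₂) ⊕ B, SameA (dat N) (dat U) ![η s, η t] ![η' s, η' t] := by
      have mk : ∀ {ι : Type} {f : ι → N} {g : ι → U} (h : SameA (dat N) (dat U) f g) (i k : ι)
          {x y : N} {x' y' : U}, f i = x → f k = y → g i = x' → g k = y' →
          SameA (dat N) (dat U) ![x, y] ![x', y'] := by
        rintro ι f g h i k x y x' y' rfl rfl rfl rfl
        have h1 := h.comp ![i, k]
        have e1 : f ∘ ![i, k] = ![f i, f k] := by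
          funext s; fin_cases s <;> rfl
        have e2 : g ∘ ![i, k] = ![g i, g k] := by
          funext s; fin_cases s <;> rfl
        rw [e1, e2] at h1
        exact h1
      subst hη hη'
      rintro (s | s) (t | t)
      · exact mk L3 s t rfl rfl rfl rfl
      · rcases s with s | s
        · exact mk L1 (Sum.inl s) (Sum.inr t) rfl rfl rfl rfl
        · exact mk L2 (Sum.inl s) (Sum.inr t) rfl rfl rfl rfl
      · rcases t with t | t
        · exact mk L1 (Sum.inr s) (Sum.inl t) rfl rfl rfl rfl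
        · exact mk L2 (Sum.inr s) (Sum.inl t) rfl rfl rfl rfl
      · exact mk L1 (Sum.inr s) (Sum.inr t) rfl rfl rfl rfl
    -- resolution of points of kind `P` or `Q`
    have res : ∀ s : (β₁ ⊕ β₂) ⊕ B, ((dat N).p (η s) ∨ (dat N).q (η s)) →
        ∃ s' : (α₁ ⊕ α₂) ⊕ B, η s = Sum.elim a (fun u : B => j u) s' ∧
          η' s = Sum.elim (Sum.elim (v₁ ∘ Sum.inl) (v₂ ∘ Sum.inl)) (fun u : B => (u : U)) s' := by
      subst hη hη'
      rintro ((s | s) | u) hs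
      · rcases nd₁ s hs with ⟨u, hu⟩ | ⟨i, hi⟩
        · have hu' : u ∈ B := hbB u ⟨Sum.inl s, hu⟩
          exact ⟨Sum.inr ⟨u, hu'⟩, hu, (L1.eq (Sum.inl s) (Sum.inr ⟨u, hu'⟩)).1 hu⟩
        · exact ⟨Sum.inl (Sum.inl i), hi, (L5.eq (Sum.inr s) (Sum.inl i)).1 hi⟩
      · rcases nd₂ s hs with ⟨u, hu⟩ | ⟨i, hi⟩
        · have hu' : u ∈ B := hbB u ⟨Sum.inr s, hu⟩
          exact ⟨Sum.inr ⟨u, hu'⟩, hu, (L2.eq (Sum.inl s) (Sum.inr ⟨u, hu'⟩)).1 hu⟩
        · exact ⟨Sum.inl (Sum.inr i), hi, (L6.eq (Sum.inr s) (Sum.inl i)).1 hi⟩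
      · exact ⟨Sum.inr u, rfl, rfl⟩
    refine ⟨fun s t => (pair s t).eq 0 1, dext (fun s => (pair s s).fp 0) (fun s => (pair s s).fq 0)
      (fun n s => (pair s s).fx n 0) (fun n s t => (pair s t).fl n 0 1)
      (fun n s t => (pair s t).fh n 0 1) ?_⟩
    intro s t w
    have key : ((dat N).p (η s) ∨ (dat N).q (η s)) → ((dat N).p (η t) ∨ (dat N).q (η t)) →
        ((dat N).p (η w) ∨ (dat N).q (η w)) →
        ((dat N).r (η s) (η t) (η w) ↔ (dat U).r (η' s) (η' t) (η' w)) := by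
      intro h1 h2 h3
      obtain ⟨s', e1, e1'⟩ := res s h1
      obtain ⟨t', e2, e2'⟩ := res t h2
      obtain ⟨w', e3, e3'⟩ := res w h3
      rw [e1, e2, e3, e1', e2', e3']
      exact L4.fr s' t' w'
    constructor
    · intro h
      exact (key (Or.inr (gN.rq _ _ _ h)) (Or.inl (gN.rp _ _ _ h)) (Or.inr (gN.rb _ _ _ h))).1 h
    · intro h
      exact (key (Or.inr (((pair s s).fq 0).2 (gU.rq _ _ _ h)))
        (Or.inl (((pair t t).fp 0).2 (gU.rp _ _ _ h)))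
        (Or.inr (((pair w w).fq 0).2 (gU.rb _ _ _ h)))).2 h

end Pool.Agent.Q209.DM
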