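import Pool.Agent.Q209.DM.Core

/-!
# Good structures, generic structures, back-and-forth
-/

namespace Pool.Agent.Q209.DM

open FirstOrder FirstOrder.Language

variable {M N K : Type}

/-- the universal axioms -/
structure Good (D : Dat M) : Prop where
  pq : ∀ a, D.p a → ¬ D.q a
  px : ∀ n a, D.p a → ¬ D.x n a
  qx : ∀ n a, D.q a → ¬ D.x n a
  xx : ∀ m n a, m ≠ n → D.x m a → ¬ D.x n a
  lp : ∀ n z y, D.l n z y → D.p y
  lz : ∀ n z y, D.l n z y → (D.q z ∨ D.x n z)
  hx : ∀ n x z, D.h n x z → D.x n x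
  hz : ∀ n x z, D.h n x z → (D.q z ∨ D.x n z)
  hl : ∀ n x z y, D.h n x z → D.l n x y → ¬ D.l n z y
  rq : ∀ a y b, D.r a y b → D.q a
  rp : ∀ a y b, D.r a y b → D.p y
  rb : ∀ a y b, D.r a y b → D.q b
  rl : ∀ a y b, D.r a y b → D.l 0 a y

theorem Good.pull {D : Dat M} (hD : Good D) (f : N → M) : Good (D.pull f) where
  pq := fun a => hD.pq (f a)
  px := fun n a => hD.px n (f a)
  qx := fun n a => hD.qx n (f a)
  xx := fun m n a => hD.xx m n (f a)
  lp := fun n z y => hD.lp n (f z) (f y)
  lz := fun n z y => hD.lz n (f z) (f y)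
  hx := fun n x z => hD.hx n (f x) (f z)
  hz := fun n x z => hD.hz n (f x) (f z)
  hl := fun n x z y => hD.hl n (f x) (f z) (f y)
  rq := fun a y b => hD.rq (f a) (f y) (f b)
  rp := fun a y b => hD.rp (f a) (f y) (f b)
  rb := fun a y b => hD.rb (f a) (f y) (f b)
  rl := fun a y b => hD.rl (f a) (f y) (f b)

theorem Good.cut {D : Dat M} (hD : Good D) (k : ℕ) : Good (D.cut k) where
  pq := fun a h h' => hD.pq a h.2 h'.2
  px := fun n a h h' => hD.px n a h.2 h'.2
  qx := fun n a h h' => hD.qx n a h.2 h'.2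
  xx := fun m n a hmn h h' => hD.xx m n a hmn h.2 h'.2
  lp := fun n z y h => ⟨by have := h.1; omega, hD.lp n z y h.2⟩
  lz := fun n z y h => (hD.lz n z y h.2).imp (fun h' => ⟨by have := h.1; omega, h'⟩)
    (fun h' => ⟨h.1, h'⟩)
  hx := fun n x z h => ⟨h.1, hD.hx n x z h.2⟩
  hz := fun n x z h => (hD.hz n x z h.2).imp (fun h' => ⟨by have := h.1; omega, h'⟩)
    (fun h' => ⟨h.1, h'⟩)
  hl := fun n x z y h h' h'' => hD.hl n x z y h.2 h'.2 h''.2
  rq := fun a y b h => ⟨h.1, hD.rq a y b h.2⟩
  rp := fun a y b h => ⟨h.1, hD.rp a y b h.2⟩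
  rb := fun a y b h => ⟨h.1, hD.rb a y b h.2⟩
  rl := fun a y b h => ⟨h.1, hD.rl a y b h.2⟩

/-- a structure is good if all its cuts are locally good -/
theorem good_of_cut {D : Dat M} (h : ∀ k, Good (D.cut k)) : Good D where
  pq := fun a h1 h2 => (h 1).pq a ⟨by omega, h1⟩ ⟨by omega, h2⟩
  px := fun n a h1 h2 => (h (n + 1)).px n a ⟨by omega, h1⟩ ⟨by omega, h2⟩
  qx := fun n a h1 h2 => (h (n + 1)).qx n a ⟨by omega, h1⟩ ⟨by omega, h2⟩
  xx := fun m n a hmn h1 h2 => (h (m + n + 1)).xx m n a hmn ⟨by omega, h1⟩ ⟨by omega, h2⟩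
  lp := fun n z y h1 => ((h (n + 1)).lp n z y ⟨by omega, h1⟩).2
  lz := fun n z y h1 => ((h (n + 1)).lz n z y ⟨by omega, h1⟩).imp (fun h => h.2) (fun h => h.2)
  hx := fun n x z h1 => ((h (n + 1)).hx n x z ⟨by omega, h1⟩).2
  hz := fun n x z h1 => ((h (n + 1)).hz n x z ⟨by omega, h1⟩).imp (fun h => h.2) (fun h => h.2)
  hl := fun n x z y h1 h2 h3 => (h (n + 1)).hl n x z y ⟨by omega, h1⟩ ⟨by omega, h2⟩ ⟨by omega, h3⟩
  rq := fun a y b h1 => ((h 1).rq a y b ⟨by omega, h1⟩).2
  rp := fun a y b h1 => ((h 1).rp a y b ⟨by omega, h1⟩).2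
  rb := fun a y b h1 => ((h 1).rb a y b ⟨by omega, h1⟩).2
  rl := fun a y b h1 => ((h 1).rl a y b ⟨by omega, h1⟩).2

/-- a structure is good if it is so on every triple of points -/
theorem good_of_local {D : Dat M} (h : ∀ t : Fin 3 → M, Good (D.pull t)) : Good D where
  pq := fun a => (h ![a, a, a]).pq 0
  px := fun n a => (h ![a, a, a]).px n 0
  qx := fun n a => (h ![a, a, a]).qx n 0
  xx := fun m n a => (h ![a, a, a]).xx m n 0
  lp := fun n z y => (h ![z, y, y]).lp n 0 1
  lz := fun n z y => (h ![z, y, y]).lz n 0 1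
  hx := fun n x z => (h ![x, z, z]).hx n 0 1
  hz := fun n x z => (h ![x, z, z]).hz n 0 1
  hl := fun n x z y => (h ![x, z, y]).hl n 0 1 2
  rq := fun a y b => (h ![a, y, b]).rq 0 1 2
  rp := fun a y b => (h ![a, y, b]).rp 0 1 2
  rb := fun a y b => (h ![a, y, b]).rb 0 1 2
  rl := fun a y b => (h ![a, y, b]).rl 0 1 2

/-- generic structures: every good one-point extension of a finite part is realised, up to any
index -/
def Gen (E : Dat N) : Prop :=
  ∀ (k : ℕ) (ι : Type) [Finite ι] (w : ι → N), Function.Injective w → ∀ G : Dat (Option ι),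
    Good G → (G.pull some).cut k = (E.pull w).cut k →
    ∃ b, (∀ i, w i ≠ b) ∧ (E.pull (oc w b)).cut k = G.cut k

theorem forth {D : Dat M} {E : Dat N} (hD : Good D) (hE : Gen E) (k : ℕ) : Forth D E k := by
  classical
  intro ι _ v w h a
  by_cases ha : ∃ i, v i = a
  · obtain ⟨i, hi⟩ := ha
    refine ⟨w i, ?_⟩
    have e1 : oc v a = v ∘ (fun o : Option ι => o.getD i) := by
      funext o
      rcases o with _ | o
      · exact hi.symm
      · rfl
    have e2 : oc w (w i) = w ∘ (fun o : Option ι => o.getD i) := by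
      funext o
      rcases o with _ | o <;> rfl
    rw [e1, e2]
    exact h.comp _
  · have ha' : ∀ i, v i ≠ a := fun i hi => ha ⟨i, hi⟩
    choose s hs using fun x : Set.range v => x.2
    have h1 : Same D E k (fun x : Set.range v => (x : M)) (w ∘ s) := by
      have := h.comp s
      have e : v ∘ s = fun x : Set.range v => (x : M) := by
        funext x; exact hs x
      rw [e] at this
      exact this
    obtain ⟨b, hb1, hb2⟩ := hE k (Set.range v) (w ∘ s) (fun x y hxy => Subtype.ext ((h1.eq x y).2 hxy))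
      (D.pull (oc (fun x : Set.range v => (x : M)) a)) (hD.pull _) h1.dt
    have h2 : Same D E k (oc (fun x : Set.range v => (x : M)) a) (oc (w ∘ s) b) := by
      refine ⟨?_, hb2.symm⟩
      intro i j
      rcases i with _ | i <;> rcases j with _ | j
      · exact ⟨fun _ => rfl, fun _ => rfl⟩
      · constructor
        · intro h'
          obtain ⟨i, hi⟩ := j.2
          exact (ha' i (hi.trans h'.symm)).elim
        · intro h'
          exact (hb1 j h'.symm).elim
      · constructor
        · intro h'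
          obtain ⟨i', hi'⟩ := i.2
          exact (ha' i' (hi'.trans h')).elim
        · intro h'
          exact (hb1 i h').elim
      · exact h1.eq i j
    refine ⟨b, ?_⟩
    have h3 := h2.comp (fun o : Option ι => o.map (fun i => (⟨v i, i, rfl⟩ : Set.range v)))
    have e1 : (oc (fun x : Set.range v => (x : M)) a) ∘
        (fun o : Option ι => o.map (fun i => (⟨v i, i, rfl⟩ : Set.range v))) = oc v a := by
      funext o
      rcases o with _ | o <;> rfl
    have e2 : (oc (w ∘ s) b) ∘
        (fun o : Option ι => o.map (fun i => (⟨v i, i, rfl⟩ : Set.range v))) = oc w b := by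
      funext o
      rcases o with _ | o
      · rfl
      · change w (s ⟨v o, o, rfl⟩) = w o
        exact (h.eq _ _).1 (hs ⟨v o, o, rfl⟩)
    rw [e1, e2] at h3
    exact h3

/-- forth, for finite tuples -/
theorem forth_fin {D : Dat M} {E : Dat N} {k : ℕ} (hf : Forth D E k) {ι : Type} [Finite ι]
    {v : ι → M} {w : ι → N} (h : Same D E k v w) {n : ℕ} (c : Fin n → M) :
    ∃ b : Fin n → N, Same D E k (Sum.elim v c) (Sum.elim w b) := by
  induction n with
  | zero =>
    refine ⟨fun i => i.elim0, ?_⟩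
    have e1 : Sum.elim v c = v ∘ (Sum.elim id (fun i : Fin 0 => i.elim0)) := by
      funext s
      rcases s with s | s
      · rfl
      · exact s.elim0
    have e2 : Sum.elim w (fun i : Fin 0 => i.elim0) =
        w ∘ (Sum.elim id (fun i : Fin 0 => i.elim0)) := by
      funext s
      rcases s with s | s
      · rfl
      · exact s.elim0
    rw [e1, e2]
    exact h.comp _
  | succ n ih =>
    obtain ⟨b, hb⟩ := ih (fun i => c i.castSucc)
    obtain ⟨b', hb'⟩ := hf _ _ _ hb (c (Fin.last n))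
    refine ⟨Fin.snoc b b', ?_⟩
    let f : ι ⊕ Fin (n + 1) → Option (ι ⊕ Fin n) := Sum.elim (fun i => some (Sum.inl i))
      (Fin.lastCases none (fun i => some (Sum.inr i)))
    have h3 := hb'.comp f
    have e1 : oc (Sum.elim v (fun i : Fin n => c i.castSucc)) (c (Fin.last n)) ∘ f =
        Sum.elim v c := by
      funext s
      rcases s with s | s
      · rfl
      · refine Fin.lastCases ?_ (fun i => ?_) s
        · simp [f]
        · simp [f]
    have e2 : oc (Sum.elim w b) b' ∘ f =
        Sum.elim w (Fin.snoc b b' : Fin (n + 1) → N) := by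
      funext s
      rcases s with s | s
      · rfl
      · refine Fin.lastCases ?_ (fun i => ?_) s
        · simp [f]
        · simp [f]
    rw [e1, e2] at h3
    exact h3

theorem forth_finite {D : Dat M} {E : Dat N} {k : ℕ} (hf : Forth D E k) {ι κ : Type} [Finite ι]
    [Finite κ] {v : ι → M} {w : ι → N} (h : Same D E k v w) (c : κ → M) :
    ∃ b : κ → N, Same D E k (Sum.elim v c) (Sum.elim w b) := by
  obtain ⟨n, ⟨e⟩⟩ := Finite.exists_equiv_fin κ
  obtain ⟨b, hb⟩ := forth_fin hf h (c ∘ e.symm)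
  refine ⟨b ∘ e, ?_⟩
  have h3 := hb.comp (Sum.map id e)
  have e1 : Sum.elim v (c ∘ e.symm) ∘ Sum.map id e = Sum.elim v c := by
    funext s
    rcases s with s | s
    · rfl
    · simp
  have e2 : Sum.elim w b ∘ Sum.map id e = Sum.elim w (b ∘ e) := by
    funext s
    rcases s with s | s <;> rfl
  rw [e1, e2] at h3
  exact h3

end Pool.Agent.Q209.DM
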