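import Pool.Agent.Q209.DM.Tr
import Pool.Agent.Q209.DM.Defs

/-!
# Elementary extensions of models of the theory, types, existence of joint realisations
-/

namespace Pool.Agent.Q209.DM

open FirstOrder FirstOrder.Language Cardinal Pool.Agent.Y562.NWO

section general

variable {L : FirstOrder.Language.{0, 0}} {U : Type} [L.Structure U]

theorem el_ex' [Nonempty U] {α γ : Type} {N : Type} [L.Structure N] (j : U ↪ₑ[L] N)
    (φ : L.Formula (α ⊕ γ)) (c : γ → U) (x : α → N) (h : φ.Realize (Sum.elim x (j ∘ c))) :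
    ∃ x : α → U, φ.Realize (Sum.elim x c) := by
  classical
  obtain ⟨F, ψ, hψ⟩ := finite_params (φ.relabel Sum.swap : L.Formula (γ ⊕ α))
  have hψ' : ∀ (K : Type) [L.Structure K] (x : α → K) (c : γ → K),
      φ.Realize (Sum.elim x c) ↔ (ψ.relabel Sum.swap : L.Formula (F ⊕ γ)).Realize
        (Sum.elim (fun i : F => x i) c) := by
    intro K _ x c
    have h1 := hψ K c x
    rw [Formula.realize_relabel] at h1
    rw [Formula.realize_relabel]
    have e1 : Sum.elim c x ∘ Sum.swap = Sum.elim x c := by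
      funext s; rcases s with s | s <;> rfl
    have e2 : Sum.elim (fun i : F => x i) c ∘ Sum.swap = Sum.elim c (fun i : F => x i) := by
      funext s; rcases s with s | s <;> rfl
    rw [e1] at h1
    rw [e2]
    exact h1
  obtain ⟨x', hx'⟩ := el_ex j _ c _ ((hψ' N x (j ∘ c)).1 h)
  refine ⟨fun a => if h : a ∈ F then x' ⟨a, h⟩ else Classical.arbitrary U, ?_⟩
  rw [hψ']
  have e : (fun i : F => (fun a => if h : a ∈ F then x' ⟨a, h⟩ else Classical.arbitrary U) (i : α)) =
      x' := by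
    funext i
    simp
  rw [e]
  exact hx'

theorem tpOver_full {A : Set U} {α N N' : Type} [L.Structure N] [L.Structure N'] {j : U ↪ₑ[L] N}
    {j' : U ↪ₑ[L] N'} {a : α → N} {a' : α → N'}
    (h : ∀ φ ∈ tpOver A j a, φ.Realize (Sum.elim a' (fun u : A => j' u))) (φ : L.Formula (α ⊕ A)) :
    φ.Realize (Sum.elim a (fun u : A => j u)) ↔ φ.Realize (Sum.elim a' (fun u : A => j' u)) := by
  refine ⟨fun h1 => h φ h1, fun h1 => ?_⟩
  by_contra h2
  have h3 : φ.not ∈ tpOver A j a := by
    change Formula.Realize _ _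
    rw [Formula.realize_not]
    exact h2
  have h4 := h _ h3
  rw [Formula.realize_not] at h4
  exact h4 h1

/-- every complete type over `A` whose restriction to the first variables is `p|A` is realised
together with `p` -/
theorem exists_joint [Nonempty U] {A : Set U} {α β : Type} {p : Set (L.Formula (α ⊕ U))}
    (hp : IsGlobalType p) {N₀ : Type} [L.Structure N₀] (j₀ : U ↪ₑ[L] N₀) (c₀ : α ⊕ β → N₀)
    (hr : ∀ φ ∈ restr A p, φ.relabel (Sum.map Sum.inl id) ∈ tpOver A j₀ c₀) :
    ∃ (N : Type) (_ : L.Structure N) (j : U ↪ₑ[L] N) (a : α → N) (b : β → N),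
      tp j a = p ∧ ∀ φ ∈ tpOver A j₀ c₀, φ.Realize (Sum.elim (Sum.elim a b) (fun u : A => j u)) := by
  classical
  obtain ⟨N₁, _, j₁, a₁, rfl⟩ := hp
  have hre : ∀ (K : Type) [L.Structure K] (ψ : L.Formula (α ⊕ U)) (v : α ⊕ β → K) (c : U → K),
      (ψ.relabel (Sum.map Sum.inl id) : L.Formula ((α ⊕ β) ⊕ U)).Realize (Sum.elim v c) ↔
        ψ.Realize (Sum.elim (v ∘ Sum.inl) c) := by
    intro K _ ψ v c
    rw [Formula.realize_relabel]
    have e : Sum.elim v c ∘ Sum.map Sum.inl id = Sum.elim (v ∘ Sum.inl) c := by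
      funext s; rcases s with s | s <;> rfl
    rw [e]
  have hre2 : ∀ (K : Type) [L.Structure K] (χ : L.Formula ((α ⊕ β) ⊕ A)) (v : α ⊕ β → K)
      (c : U → K), (χ.relabel (Sum.map id (fun u : A => (u : U)))).Realize (Sum.elim v c) ↔
        χ.Realize (Sum.elim v (fun u : A => c u)) := by
    intro K _ χ v c
    rw [Formula.realize_relabel]
    have e : Sum.elim v c ∘ Sum.map id (fun u : A => (u : U)) =
        Sum.elim v (fun u : A => c u) := by
      funext s; rcases s with s | s <;> rfl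
    rw [e]
  -- the set of formulas
  let S : Set (L.Formula ((α ⊕ β) ⊕ U)) := {θ | ∃ ψ ∈ tp j₁ a₁, ∃ χ ∈ tpOver A j₀ c₀,
    θ = (ψ.relabel (Sum.map Sum.inl id)) ⊓ χ.relabel (Sum.map id (fun u : A => (u : U)))}
  have key : ∀ ψ ∈ tp j₁ a₁, ∀ χ ∈ tpOver A j₀ c₀, ∃ v : α ⊕ β → U,
      ψ.Realize (Sum.elim (v ∘ Sum.inl) id) ∧ χ.Realize (Sum.elim v (fun u : A => (u : U))) := by
    intro ψ hψ χ hχ
    -- bring the `β` variables to the right
    let g : (α ⊕ β) ⊕ A → (α ⊕ A) ⊕ β :=
      Sum.elim (Sum.elim (fun a => Sum.inl (Sum.inl a)) Sum.inr) (fun u => Sum.inl (Sum.inr u))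
    obtain ⟨F, χ', hχ'⟩ := finite_params (χ.relabel g)
    have hχ2 : ∀ (K : Type) [L.Structure K] (v : α ⊕ β → K) (c : A → K),
        χ.Realize (Sum.elim v c) ↔
          χ'.Realize (Sum.elim (Sum.elim (v ∘ Sum.inl) c) (fun i : F => v (Sum.inr i))) := by
      intro K _ v c
      refine Iff.trans ?_ (hχ' K (Sum.elim (v ∘ Sum.inl) c) (v ∘ Sum.inr))
      rw [Formula.realize_relabel]
      have e : Sum.elim (Sum.elim (v ∘ Sum.inl) c) (v ∘ Sum.inr) ∘ g = Sum.elim v c := by
        funext s; rcases s with (s | s) | s <;> rfl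
      rw [e]
    have h1 : (χ'.iExs F : L.Formula (α ⊕ A)).relabel (Sum.map id (fun u : A => (u : U))) ∈
        tp j₁ a₁ := by
      by_contra hcon
      have h2 : (χ'.iExs F : L.Formula (α ⊕ A)).not ∈ restr A (tp j₁ a₁) := by
        change _ ∈ tp j₁ a₁
        rw [mem_tp] at hcon ⊢
        rw [Formula.realize_not]
        exact hcon
      have h3 := hr _ h2
      change Formula.Realize _ _ at h3
      rw [Formula.realize_relabel] at h3
      have e : Sum.elim c₀ (fun u : A => j₀ u) ∘ Sum.map Sum.inl id =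
          Sum.elim (c₀ ∘ Sum.inl) (fun u : A => j₀ u) := by
        funext s; rcases s with s | s <;> rfl
      rw [e, Formula.realize_not, Formula.realize_iExs] at h3
      exact h3 ⟨_, (hχ2 N₀ c₀ (fun u : A => j₀ u)).1 hχ⟩
    rw [mem_tp, Formula.realize_iExs] at h1
    obtain ⟨b₁, hb₁⟩ := h1
    let g' : (α ⊕ A) ⊕ F → (α ⊕ F) ⊕ A :=
      Sum.elim (Sum.elim (fun a => Sum.inl (Sum.inl a)) Sum.inr) (fun i => Sum.inl (Sum.inr i))
    obtain ⟨x, hx⟩ := el_ex' j₁
      ((ψ.relabel (Sum.map Sum.inl id) : L.Formula ((α ⊕ F) ⊕ U)) ⊓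
        ((χ'.relabel g').relabel (Sum.map id (fun u : A => (u : U))))) id
      (Sum.elim a₁ b₁) (by
        rw [Formula.realize_inf, Formula.realize_relabel, Formula.realize_relabel,
          Formula.realize_relabel]
        have e1 : Sum.elim (Sum.elim a₁ b₁) (j₁ ∘ id) ∘ Sum.map Sum.inl id = Sum.elim a₁ j₁ := by
          funext s; rcases s with s | s <;> rfl
        have e2 : (Sum.elim (Sum.elim a₁ b₁) (j₁ ∘ id) ∘ Sum.map id (fun u : A => (u : U))) ∘ g' =
            Sum.elim (Sum.elim a₁ (j₁ ∘ (fun u : A => (u : U)))) b₁ := by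
          funext s; rcases s with (s | s) | s <;> rfl
        rw [e1, e2]
        exact ⟨hψ, hb₁⟩)
    rw [Formula.realize_inf, Formula.realize_relabel, Formula.realize_relabel,
      Formula.realize_relabel] at hx
    have e1 : Sum.elim x (id : U → U) ∘ Sum.map Sum.inl id = Sum.elim (x ∘ Sum.inl) id := by
      funext s; rcases s with s | s <;> rfl
    have e2 : (Sum.elim x (id : U → U) ∘ Sum.map id (fun u : A => (u : U))) ∘ g' =
        Sum.elim (Sum.elim (x ∘ Sum.inl) (fun u : A => (u : U))) (x ∘ Sum.inr) := by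
      funext s; rcases s with (s | s) | s <;> rfl
    rw [e1, e2] at hx
    refine ⟨Sum.elim (x ∘ Sum.inl) (fun b => if h : b ∈ F then x (Sum.inr ⟨b, h⟩) else
      Classical.arbitrary U), ?_, ?_⟩
    · rw [Sum.elim_comp_inl]; exact hx.1
    · rw [hχ2, Sum.elim_comp_inl]
      have e3 : (fun i : F => Sum.elim (x ∘ Sum.inl) (fun b => if h : b ∈ F then
          x (Sum.inr ⟨b, h⟩) else Classical.arbitrary U) (Sum.inr (i : β))) = x ∘ Sum.inr := by
        funext i
        simp
      rw [e3]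
      exact hx.2
  obtain ⟨N, iN, j, v, hv⟩ := compact S (by
    intro S₀ hS hfin
    choose f hf g hg e using fun θ : S₀ => hS θ.2
    have : Finite S₀ := hfin
    obtain ⟨ψ, hψ⟩ := exists_conj (Set.range f) (Set.finite_range f)
    obtain ⟨χ, hχ⟩ := exists_conj (Set.range g) (Set.finite_range g)
    obtain ⟨v, hv1, hv2⟩ := key ψ (by
      refine (hψ _ _).2 ?_
      rintro _ ⟨θ, rfl⟩
      exact hf θ) χ (by
      refine (hχ _ _).2 ?_
      rintro _ ⟨θ, rfl⟩
      exact hg θ)
    refine ⟨v, fun θ hθ => ?_⟩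
    have e' := e ⟨θ, hθ⟩
    simp only at e'
    rw [e', Formula.realize_inf, hre, hre2]
    exact ⟨(hψ U _).1 hv1 _ ⟨_, rfl⟩, (hχ U _).1 hv2 _ ⟨_, rfl⟩⟩)
  have h1 : ∀ ψ ∈ tp j₁ a₁, ∀ χ ∈ tpOver A j₀ c₀, ψ.Realize (Sum.elim (v ∘ Sum.inl) j) ∧
      χ.Realize (Sum.elim v (fun u : A => j u)) := by
    intro ψ hψ χ hχ
    have := hv _ ⟨ψ, hψ, χ, hχ, rfl⟩
    rw [Formula.realize_inf, hre, hre2] at this
    exact this
  have htop1 : (⊤ : L.Formula (α ⊕ U)) ∈ tp j₁ a₁ := by
    change Formula.Realize _ _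
    simp [Formula.Realize]
  have htop2 : (⊤ : L.Formula ((α ⊕ β) ⊕ A)) ∈ tpOver A j₀ c₀ := by
    change Formula.Realize _ _
    simp [Formula.Realize]
  refine ⟨N, iN, j, v ∘ Sum.inl, v ∘ Sum.inr, ?_, ?_⟩
  · ext ψ
    refine ⟨fun hψ => ?_, fun hψ => (h1 ψ hψ _ htop2).1⟩
    by_contra hc
    have h2 : ψ.not ∈ tp j₁ a₁ := by
      change Formula.Realize _ _
      rw [Formula.realize_not]
      exact hc
    have h3 := (h1 _ h2 _ htop2).1
    rw [Formula.realize_not] at h3
    exact h3 hψ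
  · intro χ hχ
    rw [Sum.elim_comp_inl_inr]
    exact (h1 _ htop1 χ hχ).2

end general

variable {U : Type} [Lg.Structure U]

theorem ext_model (hU : U ⊨ Th) {N : Type} [Lg.Structure N] (j : U ↪ₑ[Lg] N) : N ⊨ Th :=
  (j.theory_model_iff Th).1 hU

theorem sameA_emb {N : Type} [Lg.Structure N] (j : U ↪ₑ[Lg] N) :
    SameA (dat U) (dat N) id j := by
  refine sameA_of_formulas fun φ => ?_
  rw [← j.map_formula φ]
  rfl

theorem emb_inj {N : Type} [Lg.Structure N] (j : U ↪ₑ[Lg] N) : Function.Injective j :=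
  fun _ _ h => ((sameA_emb j).eq _ _).2 h

theorem pull_emb {N : Type} [Lg.Structure N] (j : U ↪ₑ[Lg] N) : (dat N).pull j = dat U :=
  (sameA_emb j).dt.symm

/-- every good extension of a model embeds in an elementary extension -/
theorem realize_ext (hU : U ⊨ Th) {M : Type} (G : Dat M) (hG : Good G) (i : U → M)
    (hi : Function.Injective i) (hGi : G.pull i = dat U) :
    ∃ (N : Type) (_ : Lg.Structure N) (j : U ↪ₑ[Lg] N) (e : M → N), Function.Injective e ∧
      (dat N).pull e = G ∧ ∀ u, e (i u) = j u := by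
  classical
  have := nonempty_of_model hU
  let Φ : ℕ → Finset (M ⊕ U) → Lg.Formula (M ⊕ U) := fun k F =>
    (dg G k (fun x : F => Sum.elim id i (x : M ⊕ U))).relabel (fun x : F => (x : M ⊕ U))
  have hΦ : ∀ (k : ℕ) (F : Finset (M ⊕ U)) (N : Type) [Lg.Structure N] (w : M ⊕ U → N),
      (Φ k F).Realize w ↔ Same G (dat N) k (fun x : F => Sum.elim id i (x : M ⊕ U))
        (fun x : F => w x) := by
    intro k F N _ w
    rw [Formula.realize_relabel, realize_dg]
    rfl
  have claim : ∀ (k : ℕ) (F : Finset (M ⊕ U)), ∃ v : M → U, ∀ k' ≤ k, ∀ F' ⊆ F,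
      (Φ k' F').Realize (Sum.elim v id) := by
    intro k F
    have h0 : Same G (dat U) k (fun u : F.toRight => i u) (fun u : F.toRight => (u : U)) := by
      refine ⟨fun a b => ⟨fun h => hi h, fun h => by rw [h]⟩, ?_⟩
      have h1 := congrArg (fun E => (E.pull (fun u : F.toRight => (u : U))).cut k) hGi
      exact h1
    obtain ⟨b, hb⟩ := forth_finite (forth hG (gen_of_model hU) k) h0
      (fun m : F.toLeft => (m : M))
    refine ⟨fun m => if h : m ∈ F.toLeft then b ⟨m, h⟩ else Classical.arbitrary U,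
      fun k' hk' F' hF' => ?_⟩
    rw [hΦ]
    let g : F' → F.toRight ⊕ F.toLeft := fun x => match x with
      | ⟨Sum.inl m, h⟩ => Sum.inr ⟨m, by simpa using hF' h⟩
      | ⟨Sum.inr u, h⟩ => Sum.inl ⟨u, by simpa using hF' h⟩
    have h2 := (hb.comp g).mono hk'
    have e1 : Sum.elim (fun u : F.toRight => i u) (fun m : F.toLeft => (m : M)) ∘ g =
        (fun x : F' => Sum.elim id i (x : M ⊕ U)) := by
      funext x
      rcases x with ⟨m | u, h⟩ <;> rfl
    have e2 : Sum.elim (fun u : F.toRight => (u : U)) b ∘ g =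
        (fun x : F' => Sum.elim (fun m => if h : m ∈ F.toLeft then b ⟨m, h⟩ else
          Classical.arbitrary U) id (x : M ⊕ U)) := by
      funext x
      rcases x with ⟨m | u, h⟩
      · have hm : m ∈ F.toLeft := by simpa using hF' h
        simp only [Sum.elim_inl, dif_pos hm]
        rfl
      · rfl
    rw [e1, e2] at h2
    exact h2
  obtain ⟨N, iN, j, v, hv⟩ := compact {χ | ∃ k F, χ = Φ k F} (by
    intro S₀ hS hfin
    choose k F e using fun θ : S₀ => hS θ.2
    have : Finite S₀ := hfin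
    have := Fintype.ofFinite S₀
    obtain ⟨v, hv⟩ := claim (Finset.univ.sup k) (Finset.univ.biUnion F)
    refine ⟨v, fun θ hθ => ?_⟩
    have e' := e ⟨θ, hθ⟩
    simp only at e'
    rw [e']
    exact hv _ (Finset.le_sup (f := k) (Finset.mem_univ _)) _
      (Finset.subset_biUnion_of_mem F (Finset.mem_univ _)))
  have H : ∀ (k : ℕ) (F : Finset (M ⊕ U)), Same G (dat N) k (fun x : F => Sum.elim id i (x : M ⊕ U))
        (fun x : F => Sum.elim v j (x : M ⊕ U)) := fun k F => (hΦ k F N _).1 (hv _ ⟨k, F, rfl⟩)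
  have hA : SameA G (dat N) (Sum.elim id i) (Sum.elim v j) := by
    refine ⟨fun x y => (H 0 {x, y}).eq ⟨x, by simp⟩ ⟨y, by simp⟩, ext_rel fun n r t => ?_⟩
    rw [rel_pull, rel_pull]
    have h1 := (H (r.idx + 1) (Finset.univ.image t)).rel r (Nat.lt_succ_self _)
      (fun a : Fin n => ⟨t a, by simp⟩)
    exact h1
  refine ⟨N, iN, j, v, fun a b h => ?_, ?_, fun u => ?_⟩
  · exact (hA.eq (Sum.inl a) (Sum.inl b)).2 h
  · exact (hA.comp Sum.inl).dt.symm
  · exact (hA.eq (Sum.inl (i u)) (Sum.inr u)).1 rfl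

theorem tp_eq_iff (hU : U ⊨ Th) {α N N' : Type} [Lg.Structure N] [Lg.Structure N']
    (j : U ↪ₑ[Lg] N) (j' : U ↪ₑ[Lg] N') (a : α → N) (a' : α → N') :
    tp j a = tp j' a' ↔ SameA (dat N) (dat N') (Sum.elim a j) (Sum.elim a' j') := by
  constructor
  · intro h
    refine sameA_of_formulas fun φ => ?_
    have : φ ∈ tp j a ↔ φ ∈ tp j' a' := by rw [h]
    exact this
  · intro h
    ext φ
    exact qe (ext_model hU j) (ext_model hU j') φ h

theorem over_iff (hU : U ⊨ Th) {A : Set U} {α N N' : Type} [Lg.Structure N] [Lg.Structure N']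
    (j : U ↪ₑ[Lg] N) (j' : U ↪ₑ[Lg] N') (a : α → N) (a' : α → N') :
    (∀ φ ∈ tpOver A j a, φ.Realize (Sum.elim a' (fun u : A => j' u))) ↔
      SameA (dat N) (dat N') (Sum.elim a (fun u : A => j u)) (Sum.elim a' (fun u : A => j' u)) := by
  constructor
  · intro h
    exact sameA_of_formulas fun φ => tpOver_full h φ
  · intro h φ hφ
    exact (qe (ext_model hU j) (ext_model hU j') φ h).1 hφ

theorem realizes_iff (hU : U ⊨ Th) {D : Set U} {α N : Type} [Lg.Structure N]
    (j : U ↪ₑ[Lg] N) (a : α → N) (b : α → U) :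
    Realizes D (tp j a) b ↔
      SameA (dat N) (dat U) (Sum.elim a (fun u : D => j u)) (Sum.elim b (fun u : D => (u : U))) := by
  constructor
  · intro h
    refine sameA_of_formulas fun φ => ?_
    have := h φ
    rw [mem_tp] at this
    exact this
  · intro h φ
    rw [mem_tp]
    exact qe (ext_model hU j) hU φ h

end Pool.Agent.Q209.DM
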