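import Pool.Agent.Q209.DM.Mon

/-!
# The product does not respect domination on types in infinitely many variables
-/

namespace Pool.Agent.Q209.DM

open FirstOrder FirstOrder.Language Cardinal Pool.Agent.Y562.NWO

/-- names of the new points -/
inductive V : Type
  | a
  | x (m : ℕ)
  | y

/-- the extension of the structure on `U` by the new points -/
def St {U : Type} (D : Dat U) : Dat (V ⊕ U) where
  p
    | .inl .y => True
    | .inr u => D.p u
    | _ => False
  q
    | .inl .a => True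
    | .inr u => D.q u
    | _ => False
  x n
    | .inl (.x m) => m = n
    | .inr u => D.x n u
    | _ => False
  l n
    | .inl .a, .inl .y => True
    | .inl (.x m), .inl .y => m = n
    | .inl .a, .inr u => D.p u
    | .inr z, .inr u => D.l n z u
    | _, _ => False
  h n
    | .inl (.x m), .inr z => m = n ∧ (D.q z ∨ D.x n z)
    | .inr x, .inr z => D.h n x z
    | _, _ => False
  r s t w := ∃ a y b, s = .inr a ∧ t = .inr y ∧ w = .inr b ∧ D.r a y b

theorem good_St {U : Type} {D : Dat U} (hD : Good D) : Good (St D) := by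
  constructor
  · rintro ((_ | _ | _) | a) <;> simp [St]
    exact hD.pq a
  · rintro n ((_ | _ | _) | a) <;> simp [St]
    exact hD.px n a
  · rintro n ((_ | _ | _) | a) <;> simp [St]
    exact hD.qx n a
  · rintro m n ((_ | _ | _) | a) hmn <;> simp [St]
    · rintro rfl; exact hmn
    · exact hD.xx m n a hmn
  · rintro n ((_ | _ | _) | z) ((_ | _ | _) | y) <;> simp [St]
    exact hD.lp n z y
  · rintro n ((_ | _ | _) | z) ((_ | _ | _) | y) <;> simp [St]
    exact hD.lz n z y
  · rintro n ((_ | _ | _) | z) ((_ | _ | _) | y) <;> simp [St]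
    · rintro rfl _; rfl
    · exact hD.hx n z y
  · rintro n ((_ | _ | _) | z) ((_ | _ | _) | y) <;> simp [St]
    exact hD.hz n z y
  · intro n x z y h1 h2 h3
    have h4 : ∃ z0, z = Sum.inr z0 := by
      rcases x with (_ | _ | _) | x <;> rcases z with (_ | _ | _) | z <;> simp [St] at h1 ⊢
    obtain ⟨z, rfl⟩ := h4
    have h5 : ∃ y0, y = Sum.inr y0 := by
      rcases y with (_ | _ | _) | y <;> simp [St] at h3 ⊢
    obtain ⟨y, rfl⟩ := h5
    rcases x with (_ | _ | _) | x
    · simp [St] at h1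
    · simp [St] at h2
    · simp [St] at h1
    · exact hD.hl n x z y h1 h2 h3
  · rintro _ _ _ ⟨a, y, b, rfl, rfl, rfl, h⟩
    exact hD.rq a y b h
  · rintro _ _ _ ⟨a, y, b, rfl, rfl, rfl, h⟩
    exact hD.rp a y b h
  · rintro _ _ _ ⟨a, y, b, rfl, rfl, rfl, h⟩
    exact hD.rb a y b h
  · rintro _ _ _ ⟨a, y, b, rfl, rfl, rfl, h⟩
    exact hD.rl a y b h

theorem St_inr {U : Type} (D : Dat U) : (St D).pull Sum.inr = D := by
  refine Dat.ext rfl rfl rfl rfl rfl ?_
  funext a y b
  refine propext ⟨?_, fun h => ⟨a, y, b, rfl, rfl, rfl, h⟩⟩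
  rintro ⟨a', y', b', h1, h2, h3, h⟩
  rw [Sum.inr_injective h1, Sum.inr_injective h2, Sum.inr_injective h3]
  exact h

theorem St_map {U : Type} {D : Dat U} (σ : U → U) (hσ : D.pull σ = D) :
    (St D).pull (Sum.map id σ) = St D := by
  have hp : ∀ u, D.p (σ u) ↔ D.p u := fun u => iff_of_eq (congrArg (fun E => E.p u) hσ)
  have hq : ∀ u, D.q (σ u) ↔ D.q u := fun u => iff_of_eq (congrArg (fun E => E.q u) hσ)
  have hx : ∀ n u, D.x n (σ u) ↔ D.x n u := fun n u => iff_of_eq (congrArg (fun E => E.x n u) hσ)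
  have hl : ∀ n u v, D.l n (σ u) (σ v) ↔ D.l n u v :=
    fun n u v => iff_of_eq (congrArg (fun E => E.l n u v) hσ)
  have hh : ∀ n u v, D.h n (σ u) (σ v) ↔ D.h n u v :=
    fun n u v => iff_of_eq (congrArg (fun E => E.h n u v) hσ)
  have hr : ∀ u v w, D.r (σ u) (σ v) (σ w) ↔ D.r u v w :=
    fun u v w => iff_of_eq (congrArg (fun E => E.r u v w) hσ)
  refine Dat.ext ?_ ?_ ?_ ?_ ?_ ?_
  · funext s
    rcases s with (_ | _ | _) | u <;> simp [St, Dat.pull, hp]
  · funext s
    rcases s with (_ | _ | _) | u <;> simp [St, Dat.pull, hq]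
  · funext n s
    rcases s with (_ | _ | _) | u <;> simp [St, Dat.pull, hx]
  · funext n s t
    rcases s with (_ | _ | _) | u <;> rcases t with (_ | _ | _) | v <;>
      simp [St, Dat.pull, hp, hl]
  · funext n s t
    rcases s with (_ | _ | _) | u <;> rcases t with (_ | _ | _) | v <;>
      simp [St, Dat.pull, hq, hx, hh]
  · have hinr : ∀ (s : V ⊕ U) (b : U), Sum.map id σ s = Sum.inr b → ∃ a, s = Sum.inr a ∧ σ a = b := by
      rintro (s | s) b h
      · simp at h
      · exact ⟨s, rfl, by simpa using h⟩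
    funext s t w
    refine propext ⟨?_, ?_⟩
    · rintro ⟨a, y, b, h1, h2, h3, h⟩
      obtain ⟨s, rfl, rfl⟩ := hinr s a h1
      obtain ⟨t, rfl, rfl⟩ := hinr t y h2
      obtain ⟨w, rfl, rfl⟩ := hinr w b h3
      exact ⟨s, t, w, rfl, rfl, rfl, (hr _ _ _).1 h⟩
    · rintro ⟨a, y, b, rfl, rfl, rfl, h⟩
      exact ⟨σ a, σ y, σ b, rfl, rfl, rfl, (hr _ _ _).2 h⟩

/-- domination is reflexive -/
theorem dominates_refl {L : FirstOrder.Language.{0, 0}} {U : Type} [L.Structure U]
    {κ : Cardinal.{0}} {α : Type} {p : Set (L.Formula (α ⊕ U))} (hp : InvType κ p) :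
    Dominates κ p p := by
  obtain ⟨⟨N, _, j, a, rfl⟩, A, hA, hinv⟩ := hp
  refine ⟨A, hA, hinv, hinv, tpOver A j (Sum.elim a a), ⟨N, inferInstance, j, _, rfl⟩, ?_, ?_, ?_⟩
  · intro φ hφ
    change _ ∈ tp j a at hφ
    rw [mem_tp] at hφ
    change Formula.Realize _ _
    rw [Formula.realize_relabel]
    have e : Sum.elim (Sum.elim a a) (fun u : A => j u) ∘ Sum.map Sum.inl id =
        Sum.elim a (fun u : A => j u) := by
      funext s; rcases s with s | s <;> rfl
    rw [e]
    exact hφ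
  · intro φ hφ
    change _ ∈ tp j a at hφ
    rw [mem_tp] at hφ
    change Formula.Realize _ _
    rw [Formula.realize_relabel]
    have e : Sum.elim (Sum.elim a a) (fun u : A => j u) ∘ Sum.map Sum.inr id =
        Sum.elim a (fun u : A => j u) := by
      funext s; rcases s with s | s <;> rfl
    rw [e]
    exact hφ
  · intro N' _ j' a' b' ha' hr
    have : b' = a' := by
      funext i
      have h1 := hr (Term.equal (Term.var (Sum.inl (Sum.inl i))) (Term.var (Sum.inl (Sum.inr i)))) (by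
        change Formula.Realize _ _
        rw [Formula.realize_equal]
        rfl)
      rw [Formula.realize_equal] at h1
      exact h1.symm
    rw [this]
    exact ha'

section
variable {U : Type} [Lg.Structure U]

/-- the realised extension -/
structure Rz (U : Type) [Lg.Structure U] (N : Type) [Lg.Structure N] where
  j : U ↪ₑ[Lg] N
  e : V ⊕ U → N
  inj : Function.Injective e
  dt : (dat N).pull e = St (dat U)
  ej : ∀ u, e (Sum.inr u) = j u

theorem exists_Rz (hU : U ⊨ Th) : ∃ (N : Type) (_ : Lg.Structure N), Nonempty (Rz U N) := by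
  obtain ⟨N, iN, j, e, h1, h2, h3⟩ := realize_ext hU (St (dat U)) (good_St (good_of_model hU))
    Sum.inr Sum.inr_injective (St_inr _)
  exact ⟨N, iN, ⟨⟨j, e, h1, h2, h3⟩⟩⟩

variable {N : Type} [Lg.Structure N] (Z : Rz U N)

theorem Rz.fp (s : V ⊕ U) : (dat N).p (Z.e s) ↔ (St (dat U)).p s :=
  iff_of_eq (congrArg (fun E => E.p s) Z.dt)
theorem Rz.fq (s : V ⊕ U) : (dat N).q (Z.e s) ↔ (St (dat U)).q s :=
  iff_of_eq (congrArg (fun E => E.q s) Z.dt)
theorem Rz.fx (n : ℕ) (s : V ⊕ U) : (dat N).x n (Z.e s) ↔ (St (dat U)).x n s :=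
  iff_of_eq (congrArg (fun E => E.x n s) Z.dt)
theorem Rz.fl (n : ℕ) (s t : V ⊕ U) : (dat N).l n (Z.e s) (Z.e t) ↔ (St (dat U)).l n s t :=
  iff_of_eq (congrArg (fun E => E.l n s t) Z.dt)
theorem Rz.fh (n : ℕ) (s t : V ⊕ U) : (dat N).h n (Z.e s) (Z.e t) ↔ (St (dat U)).h n s t :=
  iff_of_eq (congrArg (fun E => E.h n s t) Z.dt)
theorem Rz.fr (s t w : V ⊕ U) : (dat N).r (Z.e s) (Z.e t) (Z.e w) ↔ (St (dat U)).r s t w :=
  iff_of_eq (congrArg (fun E => E.r s t w) Z.dt)

/-- the tuple of new points given by a map -/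
def Rz.tu {γ : Type} (g : γ → V) : γ → N := fun i => Z.e (Sum.inl (g i))

/-- its type over `U` -/
def Rz.ty {γ : Type} (g : γ → V) : Set (Lg.Formula (γ ⊕ U)) := tp Z.j (Z.tu g)

theorem Rz.elim {γ : Type} (g : γ → V) : Sum.elim (Z.tu g) Z.j = Z.e ∘ Sum.map g id := by
  funext s
  rcases s with s | s
  · rfl
  · exact (Z.ej s).symm

theorem Rz.inv (hU : U ⊨ Th) {γ : Type} (g : γ → V) : Invariant ∅ (Z.ty g) := by
  intro σ _ φ
  change φ.Realize _ ↔ Formula.Realize _ _
  rw [Formula.realize_relabel]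
  refine qe (ext_model hU Z.j) (ext_model hU Z.j) φ ?_
  have hσ : (dat U).pull σ = dat U := by
    refine ext_rel fun n r t => ?_
    rw [rel_pull, rel_dat, rel_dat]
    exact StrongHomClass.map_rel σ _ _
  have e1 : Sum.elim (Z.tu g) Z.j ∘ Sum.map id σ = Z.e ∘ Sum.map id σ ∘ Sum.map g id := by
    rw [Z.elim]
    funext s
    rcases s with s | s <;> rfl
  rw [e1, Z.elim]
  refine ⟨fun s t => ?_, ?_⟩
  · constructor
    · intro h
      have h1 := Z.inj h
      change Z.e (Sum.map id σ (Sum.map g id s)) = Z.e (Sum.map id σ (Sum.map g id t))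
      rw [h1]
    · intro h
      have h1 : Sum.map id σ (Sum.map g id s) = Sum.map id σ (Sum.map g id t) := Z.inj h
      have h2 : Function.Injective (Sum.map (id : V → V) σ) :=
        Function.Injective.sumMap Function.injective_id σ.injective
      change Z.e (Sum.map g id s) = Z.e (Sum.map g id t)
      rw [h2 h1]
  · rw [← pull_pull, ← pull_pull, ← pull_pull, Z.dt, St_map σ hσ]

theorem Rz.global {γ : Type} (g : γ → V) : IsGlobalType (Z.ty g) :=
  ⟨N, inferInstance, Z.j, Z.tu g, rfl⟩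

theorem Rz.invType (hU : U ⊨ Th) {κ : Cardinal.{0}} (hκ : ℵ₀ < κ) {γ : Type} (g : γ → V) :
    InvType κ (Z.ty g) :=
  ⟨Z.global g, ∅, by simpa using aleph0_pos.trans hκ, Z.inv hU g⟩

/-- adding `a` to equivalent tuples -/
theorem Rz.add_a (hU : U ⊨ Th) {ι : Type} {v w : ι → N}
    (hv : ∀ i, ∃ s, s ≠ Sum.inl V.a ∧ v i = Z.e s) (hw : ∀ i, ∃ s, s ≠ Sum.inl V.a ∧ w i = Z.e s)
    (h : SameA (dat N) (dat N) v w) :
    SameA (dat N) (dat N) (oc v (Z.e (Sum.inl V.a))) (oc w (Z.e (Sum.inl V.a))) := by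
  have hG := good_of_model (ext_model hU Z.j)
  have hqa : (dat N).q (Z.e (Sum.inl V.a)) := (Z.fq _).2 trivial
  have la : ∀ n s, s ≠ Sum.inl V.a → ((dat N).l n (Z.e (Sum.inl V.a)) (Z.e s) ↔
      (dat N).p (Z.e s)) := by
    rintro n s hs
    rw [Z.fl, Z.fp]
    rcases s with (_ | _ | _) | u
    · exact (hs rfl).elim
    all_goals simp [St]
  have ra1 : ∀ s t, ¬ (dat N).r (Z.e (Sum.inl V.a)) (Z.e s) (Z.e t) := by
    intro s t
    rw [Z.fr]
    rintro ⟨a, y, b, h, -⟩
    simp at h
  have ra3 : ∀ s t, ¬ (dat N).r (Z.e s) (Z.e t) (Z.e (Sum.inl V.a)) := by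
    intro s t
    rw [Z.fr]
    rintro ⟨a, y, b, -, -, h, -⟩
    simp at h
  have ha : ∀ n s, ¬ (dat N).h n (Z.e s) (Z.e (Sum.inl V.a)) := by
    intro n s
    rw [Z.fh]
    rcases s with (_ | _ | _) | u <;> simp [St]
  refine ⟨?_, ?_⟩
  · intro i j
    rcases i with _ | i <;> rcases j with _ | j
    · exact ⟨fun _ => rfl, fun _ => rfl⟩
    · obtain ⟨s, hs, hs'⟩ := hv j
      obtain ⟨t, ht, ht'⟩ := hw j
      constructor
      · intro h'
        exact (hs (Z.inj (h'.trans hs')).symm).elim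
      · intro h'
        exact (ht (Z.inj (h'.trans ht')).symm).elim
    · obtain ⟨s, hs, hs'⟩ := hv i
      obtain ⟨t, ht, ht'⟩ := hw i
      constructor
      · intro h'
        exact (hs (Z.inj (hs'.symm.trans h'))).elim
      · intro h'
        exact (ht (Z.inj (ht'.symm.trans h'))).elim
    · exact h.eq i j
  · have fp : ∀ i, (dat N).p (v i) ↔ (dat N).p (w i) :=
      fun i => iff_of_eq (congrArg (fun E => E.p i) h.dt)
    have fq : ∀ i, (dat N).q (v i) ↔ (dat N).q (w i) :=
      fun i => iff_of_eq (congrArg (fun E => E.q i) h.dt)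
    have fx : ∀ n i, (dat N).x n (v i) ↔ (dat N).x n (w i) :=
      fun n i => iff_of_eq (congrArg (fun E => E.x n i) h.dt)
    have fl : ∀ n i j, (dat N).l n (v i) (v j) ↔ (dat N).l n (w i) (w j) :=
      fun n i j => iff_of_eq (congrArg (fun E => E.l n i j) h.dt)
    have fh : ∀ n i j, (dat N).h n (v i) (v j) ↔ (dat N).h n (w i) (w j) :=
      fun n i j => iff_of_eq (congrArg (fun E => E.h n i j) h.dt)
    have fr : ∀ i j k, (dat N).r (v i) (v j) (v k) ↔ (dat N).r (w i) (w j) (w k) :=
      fun i j k => iff_of_eq (congrArg (fun E => E.r i j k) h.dt)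
    refine Dat.ext ?_ ?_ ?_ ?_ ?_ ?_
    · funext i
      rcases i with _ | i
      · rfl
      · exact propext (fp i)
    · funext i
      rcases i with _ | i
      · rfl
      · exact propext (fq i)
    · funext n i
      rcases i with _ | i
      · rfl
      · exact propext (fx n i)
    · funext n i j
      rcases i with _ | i <;> rcases j with _ | j
      · rfl
      · obtain ⟨s, hs, hs'⟩ := hv j
        obtain ⟨t, ht, ht'⟩ := hw j
        have h1 := la n s hs
        have h2 := la n t ht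
        rw [← hs'] at h1
        rw [← ht'] at h2
        exact propext (h1.trans ((fp j).trans h2.symm))
      · have h1 : ¬ (dat N).l n (v i) (Z.e (Sum.inl V.a)) := fun h => hG.pq _ (hG.lp _ _ _ h) hqa
        have h2 : ¬ (dat N).l n (w i) (Z.e (Sum.inl V.a)) := fun h => hG.pq _ (hG.lp _ _ _ h) hqa
        exact propext ⟨fun h => (h1 h).elim, fun h => (h2 h).elim⟩
      · exact propext (fl n i j)
    · funext n i j
      rcases i with _ | i <;> rcases j with _ | j
      · rfl
      · have h1 : ∀ x, ¬ (dat N).h n (Z.e (Sum.inl V.a)) x := fun x h => hG.qx _ _ hqa (hG.hx _ _ _ h)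
        exact propext ⟨fun h => (h1 _ h).elim, fun h => (h1 _ h).elim⟩
      · obtain ⟨s, hs, hs'⟩ := hv i
        obtain ⟨t, ht, ht'⟩ := hw i
        have h1 := ha n s
        have h2 := ha n t
        rw [← hs'] at h1
        rw [← ht'] at h2
        exact propext ⟨fun h => (h1 h).elim, fun h => (h2 h).elim⟩
      · exact propext (fh n i j)
    · funext i j k
      have hv' : ∀ o : Option ι, ∃ s, oc v (Z.e (Sum.inl V.a)) o = Z.e s := by
        intro o
        rcases o with _ | o
        · exact ⟨_, rfl⟩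
        · obtain ⟨s, -, hs⟩ := hv o
          exact ⟨s, hs⟩
      have hw' : ∀ o : Option ι, ∃ s, oc w (Z.e (Sum.inl V.a)) o = Z.e s := by
        intro o
        rcases o with _ | o
        · exact ⟨_, rfl⟩
        · obtain ⟨s, -, hs⟩ := hw o
          exact ⟨s, hs⟩
      rcases i with _ | i
      · obtain ⟨s1, h1⟩ := hv' j
        obtain ⟨s2, h2⟩ := hv' k
        obtain ⟨t1, g1⟩ := hw' j
        obtain ⟨t2, g2⟩ := hw' k
        have a1 := ra1 s1 s2
        have a2 := ra1 t1 t2
        rw [← h1, ← h2] at a1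
        rw [← g1, ← g2] at a2
        exact propext ⟨fun h => (a1 h).elim, fun h => (a2 h).elim⟩
      · rcases j with _ | j
        · have h1 : ∀ x y, ¬ (dat N).r x (Z.e (Sum.inl V.a)) y :=
            fun x y h => hG.pq _ (hG.rp _ _ _ h) hqa
          exact propext ⟨fun h => (h1 _ _ h).elim, fun h => (h1 _ _ h).elim⟩
        · rcases k with _ | k
          · obtain ⟨s1, h1⟩ := hv' (some i)
            obtain ⟨s2, h2⟩ := hv' (some j)
            obtain ⟨t1, g1⟩ := hw' (some i)
            obtain ⟨t2, g2⟩ := hw' (some j)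
            have a1 := ra3 s1 s2
            have a2 := ra3 t1 t2
            rw [← h1, ← h2] at a1
            rw [← g1, ← g2] at a2
            exact propext ⟨fun h => (a1 h).elim, fun h => (a2 h).elim⟩
          · exact propext (fr i j k)

end

end Pool.Agent.Q209.DM
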