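import Pool.Agent.Q209.DM.Star

/-!
# The product does not respect domination on types in infinitely many variables, continued
-/

namespace Pool.Agent.Q209.DM

open FirstOrder FirstOrder.Language Cardinal Pool.Agent.Y562.NWO

theorem SameA.trans {M N K : Type} {D : Dat M} {E : Dat N} {F : Dat K} {ι : Type} {v : ι → M}
    {w : ι → N} {z : ι → K} (h : SameA D E v w) (h' : SameA E F w z) : SameA D F v z :=
  ⟨fun i j => (h.eq i j).trans (h'.eq i j), h.dt.trans h'.dt⟩

theorem dext {M : Type} {D E : Dat M} (hp : ∀ a, D.p a ↔ E.p a) (hq : ∀ a, D.q a ↔ E.q a)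
    (hx : ∀ n a, D.x n a ↔ E.x n a) (hl : ∀ n a b, D.l n a b ↔ E.l n a b)
    (hh : ∀ n a b, D.h n a b ↔ E.h n a b) (hr : ∀ a b c, D.r a b c ↔ E.r a b c) : D = E := by
  refine Dat.ext ?_ ?_ ?_ ?_ ?_ ?_
  · funext a; exact propext (hp a)
  · funext a; exact propext (hq a)
  · funext n a; exact propext (hx n a)
  · funext n a b; exact propext (hl n a b)
  · funext n a b; exact propext (hh n a b)
  · funext a b c; exact propext (hr a b c)

section fields
variable {M N ι : Type} {D : Dat M} {E : Dat N} {v : ι → M} {w : ι → N} (h : SameA D E v w)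
include h
theorem SameA.fp (i : ι) : D.p (v i) ↔ E.p (w i) := iff_of_eq (congrArg (fun F => F.p i) h.dt)
theorem SameA.fq (i : ι) : D.q (v i) ↔ E.q (w i) := iff_of_eq (congrArg (fun F => F.q i) h.dt)
theorem SameA.fx (n : ℕ) (i : ι) : D.x n (v i) ↔ E.x n (w i) :=
  iff_of_eq (congrArg (fun F => F.x n i) h.dt)
theorem SameA.fl (n : ℕ) (i j : ι) : D.l n (v i) (v j) ↔ E.l n (w i) (w j) :=
  iff_of_eq (congrArg (fun F => F.l n i j) h.dt)
theorem SameA.fh (n : ℕ) (i j : ι) : D.h n (v i) (v j) ↔ E.h n (w i) (w j) :=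
  iff_of_eq (congrArg (fun F => F.h n i j) h.dt)
theorem SameA.fr (i j k : ι) : D.r (v i) (v j) (v k) ↔ E.r (w i) (w j) (w k) :=
  iff_of_eq (congrArg (fun F => F.r i j k) h.dt)
end fields

section
variable {U : Type} [Lg.Structure U] {N : Type} [Lg.Structure N] (Z : Rz U N)
  {κ : Cardinal.{0}}

theorem Rz.tensor (hU : U ⊨ Th) {γ : Type} (g : γ → V) (hg : ∀ i, g i ≠ V.a)
    (hex : ∀ F : Set U, F.Finite → ∃ b : γ → U, Realizes (∅ ∪ F) (Z.ty g) b) :
    IsTensor ∅ (Z.ty (fun _ : Unit => V.a)) (Z.ty g) (Z.ty (Sum.elim (fun _ : Unit => V.a) g)) := by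
  intro F hF
  refine ⟨hex F hF, fun b hb φ => ?_⟩
  have hb' := (realizes_iff hU Z.j (Z.tu g) b).1 hb
  change (φ.relabel _ ∈ tp Z.j _) ↔ Formula.Realize _ _
  rw [mem_tp, Formula.realize_relabel]
  refine qe (ext_model hU Z.j) (ext_model hU Z.j) φ ?_
  have h1 : SameA (dat N) (dat N) (Sum.elim (Z.tu g) (fun u : (∅ ∪ F : Set U) => Z.j u))
      (Sum.elim (fun i => Z.j (b i)) (fun u : (∅ ∪ F : Set U) => Z.j u)) := by
    have h2 := hb'.trans ((sameA_emb Z.j).comp (Sum.elim b (fun u : (∅ ∪ F : Set U) => (u : U))))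
    have e : Z.j ∘ Sum.elim b (fun u : (∅ ∪ F : Set U) => (u : U)) =
        Sum.elim (fun i => Z.j (b i)) (fun u : (∅ ∪ F : Set U) => Z.j u) := by
      funext s; rcases s with s | s <;> rfl
    rw [e] at h2
    exact h2
  have h3 := Z.add_a hU (v := Sum.elim (Z.tu g) (fun u : (∅ ∪ F : Set U) => Z.j u))
    (w := Sum.elim (fun i => Z.j (b i)) (fun u : (∅ ∪ F : Set U) => Z.j u)) (by
    rintro (i | u)
    · exact ⟨_, fun h => hg i (Sum.inl_injective h), rfl⟩
    · exact ⟨Sum.inr u, by simp, (Z.ej u).symm⟩) (by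
    rintro (i | u)
    · exact ⟨Sum.inr (b i), by simp, (Z.ej _).symm⟩
    · exact ⟨Sum.inr u, by simp, (Z.ej u).symm⟩) h1
  let f : (Unit ⊕ γ) ⊕ (∅ ∪ F : Set U) → Option (γ ⊕ (∅ ∪ F : Set U)) :=
    Sum.elim (Sum.elim (fun _ => none) (fun i => some (Sum.inl i))) (fun u => some (Sum.inr u))
  have h4 := h3.comp f
  have e1 : oc (Sum.elim (Z.tu g) (fun u : (∅ ∪ F : Set U) => Z.j u)) (Z.e (Sum.inl V.a)) ∘ f =
      Sum.elim (Z.tu (Sum.elim (fun _ : Unit => V.a) g))
        (Z.j ∘ fun u : (∅ ∪ F : Set U) => (u : U)) := by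
    funext s; rcases s with (s | s) | s <;> rfl
  have e2 : oc (Sum.elim (fun i => Z.j (b i)) (fun u : (∅ ∪ F : Set U) => Z.j u))
      (Z.e (Sum.inl V.a)) ∘ f = Sum.elim (Z.tu (fun _ : Unit => V.a)) Z.j ∘
        Sum.elim (Sum.map id b) (fun u : (∅ ∪ F : Set U) => Sum.inr (u : U)) := by
    funext s; rcases s with (s | s) | s <;> rfl
  rw [e1, e2] at h4
  exact h4

theorem Rz.exists_x (hU : U ⊨ Th) (hκ : IsMonster κ Lg U) (D : Set U) (hD : #D < κ) :
    ∃ b : ℕ → U, Realizes D (Z.ty V.x) b := by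
  have h0 : ∀ m : ℕ, ∃ b : Unit → U, Realizes D (Z.ty (fun _ : Unit => V.x m)) b :=
    fun m => exists_realizes hκ (Z.global _) D hD
  choose b hb using h0
  have H : ∀ m, SameA (dat N) (dat U) (Sum.elim (Z.tu (fun _ : Unit => V.x m)) (fun u : D => Z.j u))
      (Sum.elim (b m) (fun u : D => (u : U))) := fun m => (realizes_iff hU Z.j _ _).1 (hb m)
  have gN := good_of_model (ext_model hU Z.j)
  have gU := good_of_model hU
  have xN : ∀ m, (dat N).x m (Z.e (Sum.inl (V.x m))) := fun m => (Z.fx m _).2 rfl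
  have xU : ∀ m, (dat U).x m (b m ()) := fun m => ((H m).fx m (Sum.inl ())).1 (xN m)
  refine ⟨fun m => b m (), ?_⟩
  refine (realizes_iff hU Z.j _ _).2 ⟨?_, dext ?_ ?_ ?_ ?_ ?_ ?_⟩
  · rintro (m | u) (m' | u')
    · constructor
      · intro h
        have h1 := Sum.inl_injective (Z.inj h)
        injection h1 with h1
        rw [h1]
      · intro h
        have h1 : b m () = b m' () := h
        have h2 := xU m
        rw [h1] at h2
        have : m = m' := by
          by_contra hne
          exact gU.xx m m' _ hne h2 (xU m')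
        rw [this]
    · exact (H m).eq (Sum.inl ()) (Sum.inr u')
    · exact (H m').eq (Sum.inr u) (Sum.inl ())
    · exact (H 0).eq (Sum.inr u) (Sum.inr u')
  · rintro (m | u)
    · exact (H m).fp (Sum.inl ())
    · exact (H 0).fp (Sum.inr u)
  · rintro (m | u)
    · exact (H m).fq (Sum.inl ())
    · exact (H 0).fq (Sum.inr u)
  · rintro n (m | u)
    · exact (H m).fx n (Sum.inl ())
    · exact (H 0).fx n (Sum.inr u)
  · rintro n (m | u) (m' | u')
    · exact ⟨fun h => (gN.px _ _ (gN.lp _ _ _ h) (xN m')).elim,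
        fun h => (gU.px _ _ (gU.lp _ _ _ h) (xU m')).elim⟩
    · exact (H m).fl n (Sum.inl ()) (Sum.inr u')
    · exact (H m').fl n (Sum.inr u) (Sum.inl ())
    · exact (H 0).fl n (Sum.inr u) (Sum.inr u')
  · rintro n (m | u) (m' | u')
    · constructor
      · intro h
        exact ((Z.fh n _ _).1 h).elim
      · intro h
        exfalso
        have h' : (dat U).h n (b m ()) (b m' ()) := h
        have h1 : m = n := by
          by_contra hne
          exact gU.xx m n _ hne (xU m) (gU.hx _ _ _ h')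
        have h2 : m' = n := by
          by_contra hne
          rcases gU.hz _ _ _ h' with h3 | h3
          · exact gU.qx _ _ h3 (xU m')
          · exact gU.xx m' n _ hne (xU m') h3
        subst h1
        subst h2
        exact ((Z.fh m' _ _).1 (((H m').fh m' (Sum.inl ()) (Sum.inl ())).2 h')).elim
    · exact (H m).fh n (Sum.inl ()) (Sum.inr u')
    · exact (H m').fh n (Sum.inr u) (Sum.inl ())
    · exact (H 0).fh n (Sum.inr u) (Sum.inr u')
  · rintro (m | u) s t
    · exact ⟨fun h => (gN.qx _ _ (gN.rq _ _ _ h) (xN m)).elim,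
        fun h => (gU.qx _ _ (gU.rq _ _ _ h) (xU m)).elim⟩
    · rcases s with m | s
      · exact ⟨fun h => (gN.px _ _ (gN.rp _ _ _ h) (xN m)).elim,
          fun h => (gU.px _ _ (gU.rp _ _ _ h) (xU m)).elim⟩
      · rcases t with m | t
        · exact ⟨fun h => (gN.qx _ _ (gN.rb _ _ _ h) (xN m)).elim,
            fun h => (gU.qx _ _ (gU.rb _ _ _ h) (xU m)).elim⟩
        · exact (H 0).fr (Sum.inr u) (Sum.inr s) (Sum.inr t)

/-- the infinite tuple dominates the point `y` -/
theorem Rz.dom (hU : U ⊨ Th) (hκ : ℵ₀ < κ) :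
    Dominates κ (Z.ty V.x) (Z.ty (fun _ : Unit => V.y)) := by
  refine ⟨∅, by simpa using aleph0_pos.trans hκ, Z.inv hU _, Z.inv hU _,
    tpOver ∅ Z.j (Z.tu (Sum.elim V.x (fun _ : Unit => V.y))), ⟨N, inferInstance, _, _, rfl⟩,
    ?_, ?_, ?_⟩
  · intro φ hφ
    change _ ∈ tp Z.j _ at hφ
    rw [mem_tp] at hφ
    change Formula.Realize _ _
    rw [Formula.realize_relabel]
    have e : Sum.elim (Z.tu (Sum.elim V.x (fun _ : Unit => V.y)))
        (fun u : (∅ : Set U) => Z.j u) ∘ Sum.map Sum.inl id =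
        Sum.elim (Z.tu V.x) (Z.j ∘ (fun u : (∅ : Set U) => (u : U))) := by
      funext s; rcases s with s | s <;> rfl
    rw [e]
    exact hφ
  · intro φ hφ
    change _ ∈ tp Z.j _ at hφ
    rw [mem_tp] at hφ
    change Formula.Realize _ _
    rw [Formula.realize_relabel]
    have e : Sum.elim (Z.tu (Sum.elim V.x (fun _ : Unit => V.y)))
        (fun u : (∅ : Set U) => Z.j u) ∘ Sum.map Sum.inr id =
        Sum.elim (Z.tu (fun _ : Unit => V.y)) (Z.j ∘ (fun u : (∅ : Set U) => (u : U))) := by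
      funext s; rcases s with s | s <;> rfl
    rw [e]
    exact hφ
  · intro N' _ j' a' b' ha' hr
    have H1 := (tp_eq_iff hU j' Z.j a' (Z.tu V.x)).1 ha'
    have H2 := (over_iff hU Z.j j' _ _).1 hr
    have gN := good_of_model (ext_model hU Z.j)
    have gN' := good_of_model (ext_model hU j')
    -- the description of the type of `y`
    have desc : ∀ (K : Type) [Lg.Structure K] (hK : K ⊨ Th) (i : U ↪ₑ[Lg] K) (c : K),
        (dat K).p c → (∀ n u, ¬ (dat K).l n (i u) c) → (∀ u, c ≠ i u) →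
        SameA (dat K) (St (dat U)) (Sum.elim (fun _ : Unit => c) i)
          (Sum.map (fun _ : Unit => V.y) id) := by
      intro K _ hK i c hpc hlc hne
      have gK := good_of_model hK
      have iE := sameA_emb i
      refine ⟨?_, dext ?_ ?_ ?_ ?_ ?_ ?_⟩
      · rintro (s | s) (t | t)
        · simp
        · simp only [Sum.elim_inl, Sum.elim_inr, Sum.map_inl, Sum.map_inr, reduceCtorEq, iff_false]
          exact hne t
        · simp only [Sum.elim_inl, Sum.elim_inr, Sum.map_inl, Sum.map_inr, reduceCtorEq, iff_false]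
          exact fun h => hne s h.symm
        · simp only [Sum.elim_inr, Sum.map_inr, Sum.inr.injEq]
          exact (iE.eq s t).symm
      · rintro (s | s)
        · exact ⟨fun _ => trivial, fun _ => hpc⟩
        · exact (iE.fp s).symm
      · rintro (s | s)
        · exact ⟨fun h => gK.pq _ hpc h, fun h => h.elim⟩
        · exact (iE.fq s).symm
      · rintro n (s | s)
        · exact ⟨fun h => gK.px _ _ hpc h, fun h => h.elim⟩
        · exact (iE.fx n s).symm
      · rintro n (s | s) (t | t)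
        · refine ⟨fun h => ?_, fun h => h.elim⟩
          rcases gK.lz _ _ _ h with h1 | h1
          · exact gK.pq _ hpc h1
          · exact gK.px _ _ hpc h1
        · refine ⟨fun h => ?_, fun h => h.elim⟩
          rcases gK.lz _ _ _ h with h1 | h1
          · exact gK.pq _ hpc h1
          · exact gK.px _ _ hpc h1
        · exact ⟨fun h => hlc n s h, fun h => h.elim⟩
        · exact (iE.fl n s t).symm
      · rintro n (s | s) (t | t)
        · exact ⟨fun h => gK.px _ _ hpc (gK.hx _ _ _ h), fun h => h.elim⟩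
        · exact ⟨fun h => gK.px _ _ hpc (gK.hx _ _ _ h), fun h => h.elim⟩
        · refine ⟨fun h => ?_, fun h => h.elim⟩
          rcases gK.hz _ _ _ h with h1 | h1
          · exact gK.pq _ hpc h1
          · exact gK.px _ _ hpc h1
        · exact (iE.fh n s t).symm
      · rintro s t w
        constructor
        · intro h
          rcases s with s | s
          · exact (gK.pq _ hpc (gK.rq _ _ _ h)).elim
          · rcases t with t | t
            · exact (hlc 0 s (gK.rl _ _ _ h)).elim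
            · rcases w with w | w
              · exact (gK.pq _ hpc (gK.rb _ _ _ h)).elim
              · exact ⟨s, t, w, rfl, rfl, rfl, (iE.fr s t w).2 h⟩
        · rintro ⟨a, y, b, h1, h2, h3, h⟩
          rcases s with s | s
          · simp at h1
          · rcases t with t | t
            · simp at h2
            · rcases w with w | w
              · simp at h3
              · simp only [Sum.map_inr, Sum.inr.injEq, id_eq] at h1 h2 h3
                subst h1 h2 h3
                exact (iE.fr _ _ _).1 h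
    have hb : b' = fun _ => b' () := by funext x; rfl
    have hty : SameA (dat N) (St (dat U)) (Sum.elim (Z.tu (fun _ : Unit => V.y)) Z.j)
          (Sum.map (fun _ : Unit => V.y) id) := by
      refine desc N (ext_model hU Z.j) Z.j (Z.e (Sum.inl V.y)) ((Z.fp _).2 trivial) ?_ ?_
      · intro n u
        rw [← Z.ej, Z.fl]
        exact fun h => h
      · intro u h
        rw [← Z.ej] at h
        have := Z.inj h
        simp at this
    rw [hb]
    refine (tp_eq_iff hU j' Z.j _ _).2 ((desc N' (ext_model hU j') j' (b' ()) ?_ ?_ ?_).trans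
      hty.symm)
    · exact (H2.fp (Sum.inl (Sum.inr ()))).1 ((Z.fp (Sum.inl V.y)).2 trivial)
    · intro n u h
      have h1 : (dat N').l n (a' n) (b' ()) :=
        (H2.fl n (Sum.inl (Sum.inl n)) (Sum.inl (Sum.inr ()))).1
          ((Z.fl n (Sum.inl (V.x n)) (Sum.inl V.y)).2 rfl)
      have h2 : (dat N').h n (a' n) (j' u) := by
        refine (H1.fh n (Sum.inl n) (Sum.inr u)).2 ?_
        change (dat N).h n (Z.e (Sum.inl (V.x n))) (Z.j u)
        rw [← Z.ej, Z.fh]
        refine ⟨rfl, ?_⟩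
        have iE := sameA_emb j'
        exact (gN'.lz _ _ _ h).imp (iE.fq u).2 (iE.fx n u).2
      exact gN'.hl _ _ _ _ h2 h1 h
    · intro u h
      have h1 : (dat N').l 0 (a' 0) (b' ()) :=
        (H2.fl 0 (Sum.inl (Sum.inl 0)) (Sum.inl (Sum.inr ()))).1
          ((Z.fl 0 (Sum.inl (V.x 0)) (Sum.inl V.y)).2 rfl)
      rw [h] at h1
      have h2 := (H1.fl 0 (Sum.inl 0) (Sum.inr u)).1 h1
      change (dat N).l 0 (Z.e (Sum.inl (V.x 0))) (Z.j u) at h2
      rw [← Z.ej, Z.fl] at h2
      exact h2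

/-- the products are not comparable -/
theorem Rz.not_dom (hU : U ⊨ Th) (hκ : IsMonster κ Lg U) :
    ¬ Dominates κ (Z.ty (Sum.elim (fun _ : Unit => V.a) V.x))
      (Z.ty (Sum.elim (fun _ : Unit => V.a) (fun _ : Unit => V.y))) := by
  rintro ⟨A, hA, -, -, r, ⟨N₀, _, j₀, c₀, rfl⟩, hr1, hr2, hdom⟩
  have := nonempty_of_model hU
  obtain ⟨N', _, j', a', b', ha', hr⟩ := exists_joint (Z.global _) j₀ c₀ hr1
  have hb' := hdom N' j' a' b' ha' hr
  have H1 := (tp_eq_iff hU j' Z.j a' _).1 ha'
  have H2 := (tp_eq_iff hU j' Z.j b' _).1 hb'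
  have gN' := good_of_model (ext_model hU j')
  -- a point of `Q` outside `A`
  obtain ⟨u, hu⟩ := exists_realizes hκ (Z.global (fun _ : Unit => V.a)) A hA
  have H3 := (realizes_iff hU Z.j _ _).1 hu
  have hqu : (dat U).q (u ()) := (H3.fq (Sum.inl ())).1 ((Z.fq (Sum.inl V.a)).2 trivial)
  have huA : u () ∉ A := by
    intro h
    have h1 := (H3.eq (Sum.inl ()) (Sum.inr ⟨u (), h⟩)).2 rfl
    change Z.e (Sum.inl V.a) = Z.j (u ()) at h1
    rw [← Z.ej] at h1
    have := Z.inj h1
    simp at this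
  have hα : (dat N').q (b' (Sum.inl ())) := (H2.fq (Sum.inl (Sum.inl ()))).2 ((Z.fq (Sum.inl V.a)).2 trivial)
  have hy : (dat N').p (b' (Sum.inr ())) := (H2.fp (Sum.inl (Sum.inr ()))).2 ((Z.fp (Sum.inl V.y)).2 trivial)
  have hl : (dat N').l 0 (b' (Sum.inl ())) (b' (Sum.inr ())) :=
    (H2.fl 0 (Sum.inl (Sum.inl ())) (Sum.inl (Sum.inr ()))).2
      ((Z.fl 0 (Sum.inl V.a) (Sum.inl V.y)).2 trivial)
  have hnew : ∀ i v, b' i ≠ j' v := by
    intro i v h
    have h1 := (H2.eq (Sum.inl i) (Sum.inr v)).1 h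
    rcases i with i | i
    · change Z.e (Sum.inl V.a) = Z.j v at h1
      rw [← Z.ej] at h1
      have := Z.inj h1
      simp at this
    · change Z.e (Sum.inl V.y) = Z.j v at h1
      rw [← Z.ej] at h1
      have := Z.inj h1
      simp at this
  have hnewa : ∀ i v, a' i ≠ j' v := by
    intro i v h
    have h1 := (H1.eq (Sum.inl i) (Sum.inr v)).1 h
    rcases i with i | i
    · change Z.e (Sum.inl V.a) = Z.j v at h1
      rw [← Z.ej] at h1
      have := Z.inj h1
      simp at this
    · change Z.e (Sum.inl (V.x i)) = Z.j v at h1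
      rw [← Z.ej] at h1
      have := Z.inj h1
      simp at this
  have hpa : ∀ i, ¬ (dat N').p (a' i) := by
    intro i h
    have h1 := (H1.fp (Sum.inl i)).1 h
    rcases i with i | i
    · exact (Z.fp (Sum.inl V.a)).1 h1
    · exact (Z.fp (Sum.inl (V.x i))).1 h1
  -- the flipped structure
  let G : Dat N' := { dat N' with
    r := fun a y b => (a = b' (Sum.inl ()) ∧ y = b' (Sum.inr ()) ∧ b = j' (u ())) ∨
      (dat N').r a y b }
  have hG : Good G :=
    { pq := gN'.pq, px := gN'.px, qx := gN'.qx, xx := gN'.xx, lp := gN'.lp, lz := gN'.lz,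
      hx := gN'.hx, hz := gN'.hz, hl := gN'.hl
      rq := by
        rintro a y b (⟨rfl, rfl, rfl⟩ | h)
        · exact hα
        · exact gN'.rq _ _ _ h
      rp := by
        rintro a y b (⟨rfl, rfl, rfl⟩ | h)
        · exact hy
        · exact gN'.rp _ _ _ h
      rb := by
        rintro a y b (⟨rfl, rfl, rfl⟩ | h)
        · exact ((sameA_emb j').fq (u ())).1 hqu
        · exact gN'.rb _ _ _ h
      rl := by
        rintro a y b (⟨rfl, rfl, rfl⟩ | h)
        · exact hl
        · exact gN'.rl _ _ _ h }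
  have hpull : ∀ {ι : Type} (w : ι → N'), (∀ i j k, ¬ (w i = b' (Sum.inl ()) ∧
      w j = b' (Sum.inr ()) ∧ w k = j' (u ()))) → G.pull w = (dat N').pull w := by
    intro ι w hw
    refine dext (fun _ => Iff.rfl) (fun _ => Iff.rfl) (fun _ _ => Iff.rfl) (fun _ _ _ => Iff.rfl)
      (fun _ _ _ => Iff.rfl) (fun i j k => ?_)
    constructor
    · rintro (h | h)
      · exact (hw i j k h).elim
      · exact h
    · exact Or.inr
  have hjj : G.pull j' = dat U := by
    rw [hpull j', pull_emb]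
    rintro i j k ⟨h, -, -⟩
    exact hnew _ _ h.symm
  obtain ⟨N₂, _, j₂, e, he1, he2, he3⟩ := realize_ext hU G hG j' (emb_inj j') hjj
  have hej : ∀ {ι : Type} (w : ι → N'), (∀ i j k, ¬ (w i = b' (Sum.inl ()) ∧
      w j = b' (Sum.inr ()) ∧ w k = j' (u ()))) → SameA (dat N') (dat N₂) w (e ∘ w) := by
    intro ι w hw
    refine ⟨fun i j => ⟨fun h => congrArg e h, fun h => he1 h⟩, ?_⟩
    rw [← pull_pull, he2, hpull w hw]
  have h1 : tp j₂ (e ∘ a') = Z.ty (Sum.elim (fun _ : Unit => V.a) V.x) := by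
    rw [← ha']
    refine (tp_eq_iff hU _ _ _ _).2 (SameA.symm ?_)
    have h2 := hej (Sum.elim a' j') (by
      rintro i (j | j) k ⟨-, h, -⟩
      · refine hpa j ?_
        change a' j = _ at h
        rw [h]
        exact hy
      · exact hnew _ _ h.symm)
    have e1 : e ∘ Sum.elim a' j' = Sum.elim (e ∘ a') j₂ := by
      funext s; rcases s with s | s
      · rfl
      · exact he3 s
    rw [e1] at h2
    exact h2
  have h2 := hdom N₂ j₂ (e ∘ a') (e ∘ b') h1 (by
    have h3 := (over_iff hU j₀ j' _ _).1 hr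
    have h4 := hej (Sum.elim (Sum.elim a' b') (fun u : A => j' u)) (by
      rintro i j (k | k) ⟨-, -, h⟩
      · rcases k with k | k
        · exact hnewa _ _ h
        · exact hnew _ _ h
      · have h5 := emb_inj j' h
        exact huA (h5 ▸ k.2))
    have e1 : e ∘ Sum.elim (Sum.elim a' b') (fun u : A => j' u) =
        Sum.elim (Sum.elim (e ∘ a') (e ∘ b')) (fun u : A => j₂ u) := by
      funext s; rcases s with (s | s) | s
      · rfl
      · rfl
      · exact he3 s
    rw [e1] at h4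
    exact (over_iff hU j₀ j₂ _ _).2 (h3.trans h4))
  have H4 := (tp_eq_iff hU j₂ Z.j _ _).1 h2
  have h5 : (dat N₂).r (e (b' (Sum.inl ()))) (e (b' (Sum.inr ()))) (e (j' (u ()))) := by
    have h6 : ((dat N₂).pull e).r (b' (Sum.inl ())) (b' (Sum.inr ())) (j' (u ())) := by
      rw [he2]
      exact Or.inl ⟨rfl, rfl, rfl⟩
    exact h6
  rw [he3] at h5
  have h6 := (H4.fr (Sum.inl (Sum.inl ())) (Sum.inl (Sum.inr ())) (Sum.inr (u ()))).1 h5
  change (dat N).r (Z.e (Sum.inl V.a)) (Z.e (Sum.inl V.y)) (Z.j (u ())) at h6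
  rw [← Z.ej, Z.fr] at h6
  obtain ⟨_, _, _, h7, -⟩ := h6
  simp at h7

end

/-- The product does not respect domination on types in infinite tuples. -/
theorem not_respects {U : Type} [Lg.Structure U] (hU : U ⊨ Th) {κ : Cardinal.{0}}
    (hκ : IsMonster κ Lg U) (C : Type → Prop) (h1 : C Unit) (h2 : C ℕ) :
    ¬ Respects κ Lg U C := by
  intro H
  obtain ⟨N, _, ⟨Z⟩⟩ := exists_Rz hU
  have h0 : ℵ₀ < κ := hκ.aleph0_lt
  have hpos : #(∅ : Set U) < κ := by simpa using aleph0_pos.trans h0
  refine Z.not_dom hU hκ (H Unit ℕ Unit Unit h1 h2 h1 h1 (Z.ty (fun _ : Unit => V.a)) (Z.ty V.x)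
    (Z.ty (fun _ : Unit => V.a)) (Z.ty (fun _ : Unit => V.y)) (Z.invType hU h0 _)
    (Z.invType hU h0 _) (Z.invType hU h0 _) (Z.invType hU h0 _)
    (dominates_refl (Z.invType hU h0 _)) (Z.dom hU h0) _ _
    ⟨Z.global _, ∅, hpos, Z.inv hU _, Z.tensor hU _ (fun i => by simp) ?_⟩
    ⟨Z.global _, ∅, hpos, Z.inv hU _, Z.tensor hU _ (fun i => by simp) ?_⟩)
  · intro F hF
    exact Z.exists_x hU hκ _ (small_union hκ hpos (small_finite hκ hF))
  · intro F hF
    exact exists_realizes hκ (Z.global _) _ (small_union hκ hpos (small_finite hκ hF))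

end Pool.Agent.Q209.DM
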