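import Pool.Agent.Q209.DM.Uni

/-!
# The theory, and every model of it is good and generic
-/

namespace Pool.Agent.Q209.DM

open FirstOrder FirstOrder.Language

variable {M N K : Type}

/-- literal -/
noncomputable def lit {α : Type} (P : Prop) (φ : Lg.Formula α) : Lg.Formula α := by
  classical
  exact if P then φ else φ.not

theorem realize_lit [Lg.Structure N] {α : Type} (P : Prop) (φ : Lg.Formula α)
    (v : α → N) : (lit P φ).Realize v ↔ (P ↔ φ.Realize v) := by
  unfold lit
  by_cases hP : P
  · simp [hP]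
  · simp [hP]

/-- atomic formula -/
def at' {α : Type} {n : ℕ} (r : Rl n) (t : Fin n → α) : Lg.Formula α :=
  Relations.formula (L := Lg) (r : Rl n) (fun i => Term.var (t i))

theorem realize_at [Lg.Structure N] {α : Type} {n : ℕ} (r : Rl n) (t : Fin n → α) (v : α → N) :
    (at' r t).Realize v ↔ (dat N).rel r (v ∘ t) :=
  (Formula.realize_rel (L := Lg) (R := (r : Lg.Relations n))).trans (rel_dat r (v ∘ t)).symm

instance (k : ℕ) : Finite {s : Σ n, Rl n // s.2.idx < k} := (finite_syms k).to_subtype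

/-- the diagram up to index `k` -/
noncomputable def dg (D : Dat M) (k : ℕ) {ι : Type} [Finite ι] (v : ι → M) : Lg.Formula ι :=
  Formula.iInf (fun p : ι × ι => lit (v p.1 = v p.2) (Term.equal (Term.var p.1) (Term.var p.2))) ⊓
  Formula.iInf (fun s : Σ s : {s : Σ n, Rl n // s.2.idx < k}, (Fin s.1.1 → ι) =>
    lit (D.rel s.1.1.2 (v ∘ s.2)) (at' s.1.1.2 s.2))

theorem realize_dg [Lg.Structure N] (D : Dat M) (k : ℕ) {ι : Type} [Finite ι] (v : ι → M)
    (w : ι → N) : (dg D k v).Realize w ↔ Same D (dat N) k v w := by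
  unfold dg
  rw [Formula.realize_inf, Formula.realize_iInf, Formula.realize_iInf]
  constructor
  · rintro ⟨h1, h2⟩
    refine same_of_rel ?_ ?_
    · intro i j
      have := h1 (i, j)
      rw [realize_lit, Formula.realize_equal] at this
      exact this
    · intro n r hr t
      have := h2 ⟨⟨⟨n, r⟩, hr⟩, t⟩
      rw [realize_lit, realize_at] at this
      exact this
  · intro h
    refine ⟨?_, ?_⟩
    · rintro ⟨i, j⟩
      rw [realize_lit, Formula.realize_equal]
      exact h.eq i j
    · rintro ⟨⟨⟨n, r⟩, hr⟩, t⟩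
      rw [realize_lit, realize_at]
      exact h.rel r hr t

/-- the generic structure -/
@[reducible] noncomputable def Ustr : Lg.Structure ℕ := U₀.str

/-- the theory -/
noncomputable def Th : Lg.Theory := @completeTheory Lg ℕ Ustr

theorem forth_U (k : ℕ) : Forth U₀ U₀ k := forth good_U₀ gen_U₀ k

section
variable [Lg.Structure N]

theorem iff_U (hN : N ⊨ Th) (σ : Lg.Sentence) :
    @Sentence.Realize Lg ℕ Ustr σ ↔ N ⊨ σ := by
  let _ := Ustr
  constructor
  · intro h
    exact Theory.realize_sentence_of_mem Th h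
  · intro h
    by_contra hcon
    have h1 : (BoundedFormula.not σ : Lg.Sentence) ∈ Th := by
      change ℕ ⊨ (BoundedFormula.not σ : Lg.Sentence)
      rw [Sentence.Realize, Formula.Realize, BoundedFormula.realize_not]
      exact hcon
    have h2 : N ⊨ (BoundedFormula.not σ : Lg.Sentence) :=
      Theory.realize_sentence_of_mem Th h1
    rw [Sentence.Realize, Formula.Realize, BoundedFormula.realize_not] at h2
    exact h2 h

theorem b2 (hN : N ⊨ Th) (k : ℕ) {ι : Type} [Finite ι] (w : ι → N) :
    ∃ v : ι → ℕ, Same (dat N) U₀ k w v := by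
  let _ := Ustr
  have h0 : dat ℕ = U₀ := dat_str U₀
  have h1 : N ⊨ (((dg (dat N) k w).relabel Sum.inr : Lg.Formula (Empty ⊕ ι)).iExs ι) := by
    rw [Sentence.Realize, Formula.realize_iExs]
    refine ⟨w, ?_⟩
    rw [Formula.realize_relabel, realize_dg]
    exact Same.refl _ _ _
  have h2 := (iff_U hN _).2 h1
  rw [Sentence.Realize, Formula.realize_iExs] at h2
  obtain ⟨v, hv⟩ := h2
  rw [Formula.realize_relabel, realize_dg, h0] at hv
  exact ⟨v, hv⟩

theorem b1 (hN : N ⊨ Th) (k : ℕ) {ι : Type} [Finite ι] (v : ι → ℕ) (a : ℕ) (w : ι → N)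
    (h : Same U₀ (dat N) k v w) : ∃ b : N, Same U₀ (dat N) k (oc v a) (oc w b) := by
  let _ := Ustr
  have h0 : dat ℕ = U₀ := dat_str U₀
  let g : Option ι → (Empty ⊕ ι) ⊕ Unit := fun o => o.elim (Sum.inr ()) (fun i => Sum.inl (Sum.inr i))
  let χ : Lg.Formula (Empty ⊕ ι) := ((dg U₀ k v).relabel Sum.inr).imp
    (((dg U₀ k (oc v a)).relabel g : Lg.Formula ((Empty ⊕ ι) ⊕ Unit)).iExs Unit)
  have hχ : ∀ (K : Type) [Lg.Structure K] (x : ι → K) (e : Empty → K),
      χ.Realize (Sum.elim e x) ↔ (Same U₀ (dat K) k v x → ∃ b, Same U₀ (dat K) k (oc v a) (oc x b)) := by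
    intro K _ x e
    rw [Formula.realize_imp, Formula.realize_relabel, realize_dg, Formula.realize_iExs]
    refine imp_congr Iff.rfl ?_
    constructor
    · rintro ⟨y, hy⟩
      rw [Formula.realize_relabel, realize_dg] at hy
      refine ⟨y (), ?_⟩
      have e1 : Sum.elim (Sum.elim e x) y ∘ g = oc x (y ()) := by
        funext o
        rcases o with _ | o <;> rfl
      rw [e1] at hy
      exact hy
    · rintro ⟨b, hb⟩
      refine ⟨fun _ => b, ?_⟩
      rw [Formula.realize_relabel, realize_dg]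
      have e1 : Sum.elim (Sum.elim e x) (fun _ : Unit => b) ∘ g = oc x b := by
        funext o
        rcases o with _ | o <;> rfl
      rw [e1]
      exact hb
  have h1 : ℕ ⊨ (χ.iAlls ι) := by
    rw [Sentence.Realize, Formula.realize_iAlls]
    intro x
    rw [hχ, h0]
    intro h2
    exact forth_U k ι v x h2 a
  have h2 := (iff_U hN _).1 h1
  rw [Sentence.Realize, Formula.realize_iAlls] at h2
  have h3 := h2 w
  rw [hχ] at h3
  exact h3 h

theorem good_of_model (hN : N ⊨ Th) : Good (dat N) := by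
  refine good_of_local fun t => good_of_cut fun k => ?_
  obtain ⟨v, hv⟩ := b2 hN k t
  rw [hv.dt]
  exact (good_U₀.pull v).cut k

theorem gen_of_model (hN : N ⊨ Th) : Gen (dat N) := by
  intro k ι _ w hw G hG hGw
  obtain ⟨v, hv⟩ := b2 hN k w
  obtain ⟨a, ha, ha'⟩ := gen_U₀ k ι v (fun i j hij => hw ((hv.eq i j).2 hij)) G hG
    (hGw.trans hv.dt)
  obtain ⟨b, hb⟩ := b1 hN k v a w hv.symm
  refine ⟨b, fun i h => ha i ((hb.eq (some i) none).2 h), ?_⟩
  rw [← hb.dt]
  exact ha'

theorem nonempty_of_model (hN : N ⊨ Th) : Nonempty N := by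
  obtain ⟨b, -⟩ := gen_of_model hN 0 Empty (fun i => i.elim) (fun i => i.elim)
    (Dat.ofRel fun _ _ _ => False) good_empty (by
      refine ext_rel fun n r t => ?_
      rw [rel_cut, rel_cut]
      constructor <;> (intro h; exact absurd h.1 (Nat.not_lt_zero _)))
  exact ⟨b⟩

end

theorem forth_models [Lg.Structure M] [Lg.Structure N] (hM : M ⊨ Th) (hN : N ⊨ Th) (k : ℕ) :
    Forth (dat M) (dat N) k := forth (good_of_model hM) (gen_of_model hN) k

/-- quantifier elimination between models -/
theorem qe [Lg.Structure M] [Lg.Structure N] (hM : M ⊨ Th) (hN : N ⊨ Th) {α : Type}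
    (φ : Lg.Formula α) {v : α → M} {w : α → N} (h : SameA (dat M) (dat N) v w) :
    φ.Realize v ↔ φ.Realize w :=
  formula_iff (forth_models hM hN) (forth_models hN hM) φ h

/-- tuples satisfying the same formulas -/
theorem sameA_of_formulas [Lg.Structure M] [Lg.Structure N] {α : Type}
    {v : α → M} {w : α → N} (h : ∀ φ : Lg.Formula α, φ.Realize v ↔ φ.Realize w) :
    SameA (dat M) (dat N) v w := by
  refine ⟨fun i j => ?_, ext_rel fun n r t => ?_⟩
  · have := h (Term.equal (Term.var i) (Term.var j))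
    rw [Formula.realize_equal, Formula.realize_equal] at this
    exact this
  · rw [rel_pull, rel_pull, ← realize_at, ← realize_at]
    exact h _

end Pool.Agent.Q209.DM
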