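import Pool.Agent.Q209.DM.Gen

/-!
# A countable good generic structure
-/

namespace Pool.Agent.Q209.DM

open FirstOrder FirstOrder.Language

/-- code of a symbol -/
def Rl.code : {n : ℕ} → Rl n → ℕ × ℕ
  | _, .P => (0, 0)
  | _, .Q => (1, 0)
  | _, .X n => (2, n)
  | _, .lam n => (3, n)
  | _, .kap n => (4, n)
  | _, .R => (5, 0)

theorem code_inj {n : ℕ} {r s : Rl n} (h : r.code = s.code) : r = s := by
  cases r <;> cases s <;> simp_all [Rl.code]

instance (n : ℕ) : Countable (Rl n) := by
  refine Function.Injective.countable (f := fun r : Rl n => r.code) ?_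
  intro r s h
  exact code_inj h

theorem finite_syms (k : ℕ) : {s : Σ n, Rl n | s.2.idx < k}.Finite := by
  have h1 : ({⟨1, .P⟩, ⟨1, .Q⟩, ⟨3, .R⟩} ∪ ((fun n => (⟨1, .X n⟩ : Σ n, Rl n)) '' Set.Iio k ∪
      ((fun n => (⟨2, .lam n⟩ : Σ n, Rl n)) '' Set.Iio k ∪
      (fun n => (⟨2, .kap n⟩ : Σ n, Rl n)) '' Set.Iio k)) : Set (Σ n, Rl n)).Finite := by
    refine Set.Finite.union ?_ (Set.Finite.union ?_ (Set.Finite.union ?_ ?_))
    · exact Set.toFinite _
    · exact (Set.finite_Iio k).image _
    · exact (Set.finite_Iio k).image _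
    · exact (Set.finite_Iio k).image _
  refine h1.subset ?_
  rintro ⟨n, s⟩ hs
  cases s with
  | P => left; simp
  | Q => left; simp
  | X n => right; left; exact ⟨n, hs, rfl⟩
  | lam n => right; right; left; exact ⟨n, hs, rfl⟩
  | kap n => right; right; right; exact ⟨n, hs, rfl⟩
  | R => left; simp

/-- an entry of a row -/
abbrev Ent := Σ n : ℕ, Rl n × (Fin n → Option ℕ)

/-- rows -/
abbrev Row := Finset Ent

theorem exists_rows : ∃ f : ℕ → Row, ∀ (r : Row) (b : ℕ), ∃ n, b ≤ n ∧ f n = r := by
  obtain ⟨g, hg⟩ := exists_surjective_nat (Row × ℕ)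
  refine ⟨fun n => (g n).1, fun r b => ?_⟩
  by_contra hcon
  push Not at hcon
  have hsub : {n | (g n).1 = r} ⊆ Set.Iio b := by
    intro n hn
    by_contra h
    exact hcon n (not_lt.1 h) hn
  have hfin : {n | (g n).1 = r}.Finite := (Set.finite_Iio b).subset hsub
  have himg : (g '' {n | (g n).1 = r}).Finite := hfin.image g
  have hinf : (Set.range fun j : ℕ => ((r, j) : Row × ℕ)).Infinite :=
    Set.infinite_range_of_injective (fun a b h => (Prod.mk.inj h).2)
  refine hinf (himg.subset ?_)
  rintro _ ⟨j, rfl⟩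
  obtain ⟨n, hn⟩ := hg (r, j)
  exact ⟨n, by simp [hn], hn⟩

/-- adding the point `m` with the relations of the row -/
def cand (D : Dat ℕ) (m : ℕ) (r : Row) : Dat ℕ :=
  Dat.ofRel fun n s t => D.rel s t ∨ ((∀ i, t i ≤ m) ∧ (∃ i, t i = m) ∧
    (⟨n, s, fun i => if t i = m then none else some (t i)⟩ : Ent) ∈ r)

section
variable (f : ℕ → Row)

open Classical in
/-- the approximations -/
noncomputable def sq : ℕ → Dat ℕ
  | 0 => Dat.ofRel fun _ _ _ => False
  | m + 1 => if Good (cand (sq m) m (f m)) then cand (sq m) m (f m) else sq m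

theorem sq_bd (m : ℕ) : ∀ (n : ℕ) (s : Rl n) (t : Fin n → ℕ), (sq f m).rel s t →
    ∀ i, t i < m := by
  induction m with
  | zero =>
    intro n s t h
    rw [sq, rel_ofRel] at h
    exact h.elim
  | succ m ih =>
    intro n s t h i
    rw [sq] at h
    split_ifs at h with hg
    · rw [cand, rel_ofRel] at h
      rcases h with h | ⟨h, -, -⟩
      · have := ih n s t h i
        omega
      · have := h i
        omega
    · have := ih n s t h i
      omega

theorem sq_step (m : ℕ) {n : ℕ} (s : Rl n) (t : Fin n → ℕ) (ht : ∀ i, t i < m) :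
    (sq f (m + 1)).rel s t ↔ (sq f m).rel s t := by
  rw [sq]
  split_ifs with hg
  · rw [cand, rel_ofRel]
    constructor
    · rintro (h | ⟨-, ⟨i, hi⟩, -⟩)
      · exact h
      · have := ht i
        omega
    · exact Or.inl
  · exact Iff.rfl

theorem sq_stab {m k : ℕ} (hmk : m ≤ k) {n : ℕ} (s : Rl n) (t : Fin n → ℕ) (ht : ∀ i, t i < m) :
    (sq f k).rel s t ↔ (sq f m).rel s t := by
  induction k, hmk using Nat.le_induction with
  | base => exact Iff.rfl
  | succ k hk ih => exact (sq_step f k s t (fun i => lt_of_lt_of_le (ht i) hk)).trans ih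

/-- the union -/
noncomputable def uni : Dat ℕ := Dat.ofRel fun _ s t => ∃ m, (sq f m).rel s t

theorem uni_iff {m : ℕ} {n : ℕ} (s : Rl n) (t : Fin n → ℕ) (ht : ∀ i, t i < m) :
    (uni f).rel s t ↔ (sq f m).rel s t := by
  rw [uni, rel_ofRel]
  constructor
  · rintro ⟨k, hk⟩
    rcases le_total m k with h | h
    · exact (sq_stab f h s t ht).1 hk
    · exact (sq_stab f h s t (sq_bd f k n s t hk)).2 hk
  · exact fun h => ⟨m, h⟩

theorem good_empty {M : Type} : Good (Dat.ofRel fun _ _ _ => False : Dat M) := by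
  constructor <;> intros <;> simp_all [Dat.ofRel]

theorem good_sq (m : ℕ) : Good (sq f m) := by
  induction m with
  | zero => rw [sq]; exact good_empty
  | succ m ih =>
    rw [sq]
    split_ifs with hg
    · exact hg
    · exact ih

theorem good_uni : Good (uni f) := by
  refine good_of_local fun t => ?_
  obtain ⟨b, hb⟩ := (Set.finite_range t).bddAbove
  have hb' : ∀ i, t i < b + 1 := fun i => Nat.lt_succ_of_le (hb ⟨i, rfl⟩)
  have : (uni f).pull t = (sq f (b + 1)).pull t := by
    refine ext_rel fun n r u => ?_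
    rw [rel_pull, rel_pull]
    exact uni_iff f r _ (fun i => hb' _)
  rw [this]
  exact (good_sq f _).pull t

theorem gen_uni (hf : ∀ (r : Row) (b : ℕ), ∃ n, b ≤ n ∧ f n = r) : Gen (uni f) := by
  classical
  intro k ι _ w hw G hG hGw
  -- the row
  have hfin : {e : Ent | e.2.1.idx < k ∧ ∃ u : Fin e.1 → Option ι,
      e.2.2 = Option.map w ∘ u ∧ (∃ i, u i = none) ∧ G.rel e.2.1 u}.Finite := by
    have h1 : (⋃ s ∈ {s : Σ n, Rl n | s.2.idx < k}, Set.range (fun u : Fin s.1 → Option ι =>
        (⟨s.1, s.2, Option.map w ∘ u⟩ : Ent))).Finite :=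
      (finite_syms k).biUnion fun s _ => Set.finite_range _
    refine h1.subset ?_
    rintro ⟨n, s, t⟩ ⟨h, u, hu, -, -⟩
    simp only [Set.mem_iUnion]
    refine ⟨⟨n, s⟩, h, u, ?_⟩
    simp only at hu
    rw [hu]
  obtain ⟨b, hb⟩ := (Set.finite_range w).bddAbove
  obtain ⟨m, hm, hrow⟩ := hf hfin.toFinset (b + 1)
  have hwm : ∀ i, w i < m := fun i => by
    have := hb ⟨i, rfl⟩
    omega
  have hmem : ∀ {n : ℕ} (s : Rl n) (t : Fin n → Option ℕ), (⟨n, s, t⟩ : Ent) ∈ f m ↔
      s.idx < k ∧ ∃ u : Fin n → Option ι, t = Option.map w ∘ u ∧ (∃ i, u i = none) ∧ G.rel s u := by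
    intro n s t
    rw [hrow, Set.Finite.mem_toFinset]
    exact Iff.rfl
  set D := sq f m with hD
  have hDG : Good D := good_sq f m
  set C := cand D m (f m) with hC
  have key : ∀ {n : ℕ} (s : Rl n) (t : Fin n → ℕ), C.rel s t ↔ ((∀ i, t i < m) ∧ D.rel s t) ∨
      (s.idx < k ∧ (∃ i, t i = m) ∧ ∃ u : Fin n → Option ι, t = oc w m ∘ u ∧ G.rel s u) := by
    intro n s t
    rw [hC, cand, rel_ofRel]
    constructor
    · rintro (h | ⟨h1, ⟨i, hi⟩, h3⟩)
      · exact Or.inl ⟨sq_bd f m n s t h, h⟩
      · right
        rw [hmem] at h3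
        obtain ⟨h3, u, hu, -, hGu⟩ := h3
        refine ⟨h3, ⟨i, hi⟩, u, ?_, hGu⟩
        funext j
        have h4 := congrFun hu j
        simp only [Function.comp_apply] at h4 ⊢
        cases hj : u j with
        | none =>
          rw [hj] at h4
          by_contra hne
          change ¬ t j = m at hne
          rw [if_neg hne] at h4
          simp at h4
        | some a =>
          rw [hj] at h4
          by_cases hne : t j = m
          · rw [if_pos hne] at h4
            simp at h4
          · rw [if_neg hne] at h4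
            simp only [Option.map_some, Option.some.injEq] at h4
            exact h4
    · rintro (⟨h1, h2⟩ | ⟨h1, ⟨i, hi⟩, u, rfl, h4⟩)
      · exact Or.inl h2
      · right
        refine ⟨?_, ⟨i, hi⟩, ?_⟩
        · intro j
          simp only [Function.comp_apply]
          cases u j with
          | none => exact le_refl _
          | some a => exact (hwm a).le
        · rw [hmem]
          refine ⟨h1, u, ?_, ⟨i, ?_⟩, h4⟩
          · funext j
            simp only [Function.comp_apply]
            cases u j with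
            | none => simp
            | some a => simp [(hwm a).ne]
          · cases hj : u i with
            | none => rfl
            | some a =>
              simp only [Function.comp_apply, hj] at hi
              have := hwm a
              simp only [oc, Option.elim_some] at hi
              omega
  have img : ∀ {n : ℕ} (s : Rl n) (u : Fin n → Option ι), s.idx < k →
      (C.rel s (oc w m ∘ u) ↔ G.rel s u) := by
    intro n s u hs
    rw [key]
    constructor
    · rintro (⟨h1, h2⟩ | ⟨-, -, u', hu', hG'⟩)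
      · have h3 : ∀ i, ∃ a, u i = some a := by
          intro i
          cases hi : u i with
          | none =>
            have := h1 i
            simp only [Function.comp_apply, hi, oc, Option.elim_none] at this
            omega
          | some a => exact ⟨a, rfl⟩
        choose a ha using h3
        have ha' : u = some ∘ a := funext ha
        subst ha'
        have h4 := congrArg (fun G => G.rel s a) hGw
        have h5 : ((G.pull some).cut k).rel s a ↔ (((uni f).pull w).cut k).rel s a := iff_of_eq h4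
        rw [rel_cut, rel_cut, rel_pull, rel_pull, uni_iff f s (w ∘ a) (fun i => hwm _)] at h5
        exact (h5.2 ⟨hs, h2⟩).2
      · have : u = u' := by
          funext i
          have h4 := congrFun hu' i
          simp only [Function.comp_apply] at h4
          cases hi : u i with
          | none =>
            cases hi' : u' i with
            | none => rfl
            | some a' =>
              rw [hi, hi'] at h4
              have := hwm a'
              simp only [oc, Option.elim_none, Option.elim_some] at h4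
              omega
          | some a =>
            cases hi' : u' i with
            | none =>
              rw [hi, hi'] at h4
              have := hwm a
              simp only [oc, Option.elim_none, Option.elim_some] at h4
              omega
            | some a' =>
              rw [hi, hi'] at h4
              simp only [oc, Option.elim_some] at h4
              rw [hw h4]
        rw [this]
        exact hG'
    · intro h
      by_cases hn : ∃ i, u i = none
      · obtain ⟨i, hi⟩ := hn
        exact Or.inr ⟨hs, ⟨i, by simp [hi]⟩, u, rfl, h⟩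
      · left
        have h3 : ∀ i, ∃ a, u i = some a := by
          intro i
          cases hi : u i with
          | none => exact (hn ⟨i, hi⟩).elim
          | some a => exact ⟨a, rfl⟩
        choose a ha using h3
        have ha' : u = some ∘ a := funext ha
        subst ha'
        refine ⟨fun i => hwm _, ?_⟩
        have h4 := congrArg (fun G => G.rel s a) hGw
        have h5 : ((G.pull some).cut k).rel s a ↔ (((uni f).pull w).cut k).rel s a := iff_of_eq h4
        rw [rel_cut, rel_cut, rel_pull, rel_pull, uni_iff f s (w ∘ a) (fun i => hwm _)] at h5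
        exact (h5.1 ⟨hs, h⟩).2
  -- forms for the fields
  have one : ∀ (s : Rl 1) (a : ℕ), C.rel s ![a] → (a < m ∧ D.rel s ![a]) ∨
      (s.idx < k ∧ ∃ a' : Option ι, a = oc w m a' ∧ G.rel s ![a']) := by
    intro s a h
    rcases (key s ![a]).1 h with ⟨h1, h2⟩ | ⟨h1, -, u, hu, h3⟩
    · exact Or.inl ⟨h1 0, h2⟩
    · refine Or.inr ⟨h1, u 0, congrFun hu 0, ?_⟩
      rw [vec1]; exact h3
  have one' : ∀ (s : Rl 1) (a : ℕ), a < m → D.rel s ![a] → C.rel s ![a] := by
    intro s a h h'
    refine (key s ![a]).2 (Or.inl ⟨fun i => ?_, h'⟩)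
    fin_cases i
    exact h
  have one'' : ∀ (s : Rl 1) (a : Option ι), s.idx < k → (C.rel s ![oc w m a] ↔ G.rel s ![a]) := by
    intro s a h
    rw [← img s ![a] h]
    have : ![oc w m a] = oc w m ∘ ![a] := by
      funext i; fin_cases i; rfl
    rw [this]
  have two : ∀ (s : Rl 2) (a c : ℕ), C.rel s ![a, c] → (a < m ∧ c < m ∧ D.rel s ![a, c]) ∨
      (s.idx < k ∧ (a = m ∨ c = m) ∧ ∃ a' c' : Option ι, a = oc w m a' ∧ c = oc w m c' ∧
        G.rel s ![a', c']) := by
    intro s a c h
    rcases (key s ![a, c]).1 h with ⟨h1, h2⟩ | ⟨h1, ⟨i, hi⟩, u, hu, h3⟩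
    · exact Or.inl ⟨h1 0, h1 1, h2⟩
    · refine Or.inr ⟨h1, ?_, u 0, u 1, congrFun hu 0, congrFun hu 1, ?_⟩
      · fin_cases i
        · exact Or.inl hi
        · exact Or.inr hi
      · rw [vec2]; exact h3
  have three : ∀ (s : Rl 3) (a c d : ℕ), C.rel s ![a, c, d] →
      (a < m ∧ c < m ∧ d < m ∧ D.rel s ![a, c, d]) ∨
      (s.idx < k ∧ ∃ a' c' d' : Option ι, a = oc w m a' ∧ c = oc w m c' ∧ d = oc w m d' ∧
        G.rel s ![a', c', d']) := by
    intro s a c d h
    rcases (key s ![a, c, d]).1 h with ⟨h1, h2⟩ | ⟨h1, -, u, hu, h3⟩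
    · exact Or.inl ⟨h1 0, h1 1, h1 2, h2⟩
    · refine Or.inr ⟨h1, u 0, u 1, u 2, congrFun hu 0, congrFun hu 1, congrFun hu 2, ?_⟩
      rw [vec3]; exact h3
  have two' : ∀ (s : Rl 2) (a c : ℕ), a < m → c < m → D.rel s ![a, c] → C.rel s ![a, c] := by
    intro s a c h h' h''
    refine (key s ![a, c]).2 (Or.inl ⟨fun i => ?_, h''⟩)
    fin_cases i
    · exact h
    · exact h'
  have two'' : ∀ (s : Rl 2) (a c : Option ι), s.idx < k →
      (C.rel s ![oc w m a, oc w m c] ↔ G.rel s ![a, c]) := by
    intro s a c h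
    rw [← img s ![a, c] h]
    have : ![oc w m a, oc w m c] = oc w m ∘ ![a, c] := by
      funext i; fin_cases i <;> rfl
    rw [this]
  have inj : ∀ a a' : Option ι, oc w m a = oc w m a' → a = a' := by
    intro a a' h
    cases a with
    | none =>
      cases a' with
      | none => rfl
      | some a' =>
        have := hwm a'
        simp only [oc, Option.elim_none, Option.elim_some] at h
        omega
    | some a =>
      cases a' with
      | none =>
        have := hwm a
        simp only [oc, Option.elim_none, Option.elim_some] at h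
        omega
      | some a' =>
        simp only [oc, Option.elim_some] at h
        rw [hw h]
  -- disjointness of unary predicates
  have dis : ∀ (s s' : Rl 1), (∀ a, D.rel s ![a] → ¬ D.rel s' ![a]) →
      (∀ a, G.rel s ![a] → ¬ G.rel s' ![a]) → ∀ a, C.rel s ![a] → ¬ C.rel s' ![a] := by
    intro s s' h1 h2 a h3 h4
    rcases one s a h3 with ⟨h5, h6⟩ | ⟨h5, a', rfl, h6⟩
    · rcases one s' a h4 with ⟨h7, h8⟩ | ⟨h7, a', rfl, h8⟩
      · exact h1 a h6 h8
      · have h9 : a' ≠ none := by
          rintro rfl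
          simp only [oc, Option.elim_none] at h5
          omega
        obtain ⟨i, rfl⟩ := Option.ne_none_iff_exists'.1 h9
        have h11 := (key s' ![oc w m (some i)]).1 h4
        rcases h11 with ⟨-, h11⟩ | ⟨-, ⟨j, hj⟩, -⟩
        · exact h1 _ h6 h11
        · fin_cases j
          have := hwm i
          simp only [oc, Option.elim_some, Fin.zero_eta, Matrix.cons_val_zero] at hj
          omega
    · rcases one s' _ h4 with ⟨h7, h8⟩ | ⟨h7, a'', ha'', h8⟩
      · have h9 : a' ≠ none := by
          rintro rfl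
          simp only [oc, Option.elim_none] at h7
          omega
        obtain ⟨i, rfl⟩ := Option.ne_none_iff_exists'.1 h9
        have h10 := (key s ![oc w m (some i)]).1 h3
        rcases h10 with ⟨-, h10⟩ | ⟨-, ⟨j, hj⟩, -⟩
        · exact h1 _ h10 h8
        · fin_cases j
          have := hwm i
          simp only [oc, Option.elim_some, Fin.zero_eta, Matrix.cons_val_zero] at hj
          omega
      · rw [← inj _ _ ha''] at h8
        exact h2 a' h6 h8
  have hCG : Good C := by
    constructor
    · exact dis .P .Q hDG.pq hG.pq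
    · exact fun n => dis .P (.X n) (hDG.px n) (hG.px n)
    · exact fun n => dis .Q (.X n) (hDG.qx n) (hG.qx n)
    · exact fun i j a hij => dis (.X i) (.X j) (fun a => hDG.xx i j a hij)
        (fun a => hG.xx i j a hij) a
    · intro n z y h
      rcases two (.lam n) z y h with ⟨h1, h2, h3⟩ | ⟨h1, -, z', y', rfl, rfl, h3⟩
      · exact one' .P y h2 (hDG.lp n z y h3)
      · exact (one'' .P y' (Nat.zero_lt_of_lt h1)).2 (hG.lp n z' y' h3)
    · intro n z y h
      rcases two (.lam n) z y h with ⟨h1, h2, h3⟩ | ⟨h1, -, z', y', rfl, rfl, h3⟩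
      · exact (hDG.lz n z y h3).imp (one' .Q z h1) (one' (.X n) z h1)
      · exact (hG.lz n z' y' h3).imp (one'' .Q z' (Nat.zero_lt_of_lt h1)).2 (one'' (.X n) z' h1).2
    · intro n z y h
      rcases two (.kap n) z y h with ⟨h1, h2, h3⟩ | ⟨h1, -, z', y', rfl, rfl, h3⟩
      · exact one' (.X n) z h1 (hDG.hx n z y h3)
      · exact (one'' (.X n) z' h1).2 (hG.hx n z' y' h3)
    · intro n z y h
      rcases two (.kap n) z y h with ⟨h1, h2, h3⟩ | ⟨h1, -, z', y', rfl, rfl, h3⟩
      · exact (hDG.hz n z y h3).imp (one' .Q y h2) (one' (.X n) y h2)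
      · exact (hG.hz n z' y' h3).imp (one'' .Q y' (Nat.zero_lt_of_lt h1)).2 (one'' (.X n) y' h1).2
    · intro n x z y h1 h2 h3
      have fin : ∀ x' z' y' : Option ι, n < k → x = oc w m x' → z = oc w m z' → y = oc w m y' →
          False := by
        rintro x' z' y' hn rfl rfl rfl
        exact hG.hl n x' z' y' ((two'' (.kap n) x' z' hn).1 h1) ((two'' (.lam n) x' y' hn).1 h2)
          ((two'' (.lam n) z' y' hn).1 h3)
      rcases two (.kap n) x z h1 with ⟨a1, a2, a3⟩ | ⟨a1, a2, x', z', hx, hz, -⟩
      · rcases two (.lam n) x y h2 with ⟨b1, b2, b3⟩ | ⟨b1, b2, x'', y', hx, hy, -⟩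
        · rcases two (.lam n) z y h3 with ⟨c1, c2, c3⟩ | ⟨c1, c2, z', y', hz, hy, -⟩
          · exact hDG.hl n x z y a3 b3 c3
          · rcases c2 with c2 | c2 <;> omega
        · rcases two (.lam n) z y h3 with ⟨c1, c2, c3⟩ | ⟨c1, c2, z', y'', hz, hy', -⟩
          · rcases b2 with b2 | b2 <;> omega
          · exact fin x'' z' y' b1 hx hz hy
      · rcases two (.lam n) x y h2 with ⟨b1, b2, b3⟩ | ⟨b1, b2, x'', y', hx', hy, -⟩
        · rcases two (.lam n) z y h3 with ⟨c1, c2, c3⟩ | ⟨c1, c2, z'', y', hz', hy, -⟩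
          · rcases a2 with a2 | a2 <;> omega
          · exact fin x' z' y' a1 hx hz hy
        · exact fin x' z' y' a1 hx hz hy
    · intro a y b h
      rcases three .R a y b h with ⟨h1, h2, h3, h4⟩ | ⟨h1, a', y', b', rfl, rfl, rfl, h4⟩
      · exact one' .Q a h1 (hDG.rq a y b h4)
      · exact (one'' .Q a' h1).2 (hG.rq a' y' b' h4)
    · intro a y b h
      rcases three .R a y b h with ⟨h1, h2, h3, h4⟩ | ⟨h1, a', y', b', rfl, rfl, rfl, h4⟩
      · exact one' .P y h2 (hDG.rp a y b h4)
      · exact (one'' .P y' h1).2 (hG.rp a' y' b' h4)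
    · intro a y b h
      rcases three .R a y b h with ⟨h1, h2, h3, h4⟩ | ⟨h1, a', y', b', rfl, rfl, rfl, h4⟩
      · exact one' .Q b h3 (hDG.rb a y b h4)
      · exact (one'' .Q b' h1).2 (hG.rb a' y' b' h4)
    · intro a y b h
      rcases three .R a y b h with ⟨h1, h2, h3, h4⟩ | ⟨h1, a', y', b', rfl, rfl, rfl, h4⟩
      · exact two' (.lam 0) a y h1 h2 (hDG.rl a y b h4)
      · exact (two'' (.lam 0) a' y' h1).2 (hG.rl a' y' b' h4)
  refine ⟨m, fun i => (hwm i).ne, ext_rel fun n s t => ?_⟩
  rw [rel_cut, rel_cut, rel_pull]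
  have hlt : ∀ i, (oc w m ∘ t) i < m + 1 := by
    intro i
    simp only [Function.comp_apply]
    cases t i with
    | none => exact Nat.lt_succ_self m
    | some a => exact (hwm a).trans (Nat.lt_succ_self m)
  rw [uni_iff f s _ hlt]
  have hsucc : sq f (m + 1) = C := by
    rw [sq, if_pos hCG]
  rw [hsucc]
  constructor
  · rintro ⟨h1, h2⟩; exact ⟨h1, (img s t h1).1 h2⟩
  · rintro ⟨h1, h2⟩; exact ⟨h1, (img s t h1).2 h2⟩

end

theorem exists_gen : ∃ D : Dat ℕ, Good D ∧ Gen D := by
  obtain ⟨f, hf⟩ := exists_rows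
  exact ⟨uni f, good_uni f, gen_uni f hf⟩

/-- the generic data -/
noncomputable def U₀ : Dat ℕ := Classical.choose exists_gen

theorem good_U₀ : Good U₀ := (Classical.choose_spec exists_gen).1
theorem gen_U₀ : Gen U₀ := (Classical.choose_spec exists_gen).2

end Pool.Agent.Q209.DM
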